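import Pool.Agent.H822R5.LN.Defs
import Pool.Agent.H554R2.Lin.Form

/-! Task CRO: the four hybrids. -/

set_option autoImplicit false

open Finset

namespace Pool.Agent.H822R5.LN.TCRO

open Pool.Agent.H822R5.LN
open Pool.Agent.H554R2.Sem Pool.Agent.H554R2.Coin Pool.Agent.H554R2.Lin

/-- the indicator of the pairs with the sum `s` -/
def cc (p s : ℕ) (e : Fin (p * p) × Fin (p * p)) : ZMod 2 :=
  if e.1 < e.2 ∧ pos p e.1 + pos p e.2 = s then 1 else 0

theorem form_sum (p s : ℕ) (x : Pt (p * p)) (β : Bool) (h : form p s x = β) :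
    ∑ e : Fin (p * p) × Fin (p * p), cc p s e * (v8_bz x e.1 * v8_bz x e.2) =
      if β then 1 else 0 := by
  have h1 : ∑ e : Fin (p * p) × Fin (p * p), cc p s e * (v8_bz x e.1 * v8_bz x e.2) =
      ((univ.filter (fun e : Fin (p * p) × Fin (p * p) => e.1 < e.2 ∧
        pos p e.1 + pos p e.2 = s ∧ x e.1 = true ∧ x e.2 = true)).card : ZMod 2) := by
    rw [card_filter]
    push_cast
    refine sum_congr rfl fun e _ => ?_
    unfold v8_bz cc
    by_cases g1 : e.1 < e.2 <;> by_cases g2 : pos p e.1 + pos p e.2 = s <;>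
      by_cases g3 : x e.1 = true <;> by_cases g4 : x e.2 = true <;> simp [g1, g2, g3, g4]
  rw [h1, ← h]
  unfold form
  by_cases h2 : Odd (univ.filter (fun e : Fin (p * p) × Fin (p * p) => e.1 < e.2 ∧
        pos p e.1 + pos p e.2 = s ∧ x e.1 = true ∧ x e.2 = true)).card
  · rw [ZMod.natCast_eq_one_iff_odd.2 h2]
    simp [h2]
  · rw [ZMod.natCast_eq_zero_iff_even.2 (Nat.not_odd_iff_even.1 h2)]
    simp [h2]

theorem bz_diff {n : ℕ} {x x' : Pt n} {u : Fin n} (h : x u ≠ x' u) :
    v8_bz x u - v8_bz x' u = 1 := by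
  unfold v8_bz
  cases hx : x u <;> cases hy : x' u
  · exact absurd (hx.trans hy.symm) h
  · simp only [if_true]; decide
  · simp only [if_true]; decide
  · exact absurd (hx.trans hy.symm) h

theorem CRO (h : S_pos) : S_cross := by
  intro p hp A B hAB x0 x x' y y' hx hx' hy hy' u hu v hv hxu hxw hyv hyw c ⟨f1, f2, f3, f4⟩
  obtain ⟨hmono, -⟩ := h p hp
  have hz : ∀ (x y : Pt (p * p)), (∀ v, v ∉ A → x v = x0 v) → (∀ v, v ∉ B → y v = x0 v) →
      ∀ w, v8_bz (merge A x y) w = v8_bz x w + v8_bz y w - v8_bz x0 w := by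
    intro x y hx hy w
    unfold v8_bz merge
    by_cases hw : w ∈ A
    · have hwB : w ∉ B := fun h => disjoint_left.1 hAB hw h
      rw [if_pos hw, hy w hwB]
      ring
    · rw [if_neg hw, hx w hw]
      ring
  set s := pos p u + pos p v with hs
  set dx : Fin (p * p) → ZMod 2 := fun w => v8_bz x w - v8_bz x' w with hdx
  set dy : Fin (p * p) → ZMod 2 := fun w => v8_bz y w - v8_bz y' w with hdy
  have q1 := form_sum p s _ c f1
  have q2 := form_sum p s _ c f2
  have q3 := form_sum p s _ c f3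
  have q4 := form_sum p s _ c f4
  have e1 : ∑ e : Fin (p * p) × Fin (p * p), cc p s e * (dx e.1 * dy e.2 + dy e.1 * dx e.2) =
      0 := by
    have e2 : ∑ e : Fin (p * p) × Fin (p * p), cc p s e * (dx e.1 * dy e.2 + dy e.1 * dx e.2) =
        (∑ e : Fin (p * p) × Fin (p * p),
          cc p s e * (v8_bz (merge A x y) e.1 * v8_bz (merge A x y) e.2) -
        ∑ e : Fin (p * p) × Fin (p * p),
          cc p s e * (v8_bz (merge A x' y) e.1 * v8_bz (merge A x' y) e.2)) -
        (∑ e : Fin (p * p) × Fin (p * p),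
          cc p s e * (v8_bz (merge A x y') e.1 * v8_bz (merge A x y') e.2) -
        ∑ e : Fin (p * p) × Fin (p * p),
          cc p s e * (v8_bz (merge A x' y') e.1 * v8_bz (merge A x' y') e.2)) := by
      rw [← sum_sub_distrib, ← sum_sub_distrib, ← sum_sub_distrib]
      refine sum_congr rfl fun e _ => ?_
      rw [hz x y hx hy, hz x y hx hy, hz x' y hx' hy, hz x' y hx' hy, hz x y' hx hy',
        hz x y' hx hy', hz x' y' hx' hy', hz x' y' hx' hy']
      simp only [hdx, hdy]
      ring
    rw [e2, q1, q2, q3, q4]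
    simp
  have hdx0 : ∀ w < u, dx w = 0 := by
    intro w hw
    simp only [hdx, v8_bz]
    rw [hxw w hw, sub_self]
  have hdy0 : ∀ w < v, dy w = 0 := by
    intro w hw
    simp only [hdy, v8_bz]
    rw [hyw w hw, sub_self]
  have huv : u ≠ v := fun h => disjoint_left.1 hAB hu (h ▸ hv)
  have key : ∀ w₁ w₂ : Fin (p * p), dx w₁ ≠ 0 → dy w₂ ≠ 0 → pos p w₁ + pos p w₂ = s →
      w₁ = u ∧ w₂ = v := by
    intro w₁ w₂ h1 h2 h3
    have g1 : u ≤ w₁ := not_lt.1 fun h => h1 (hdx0 _ h)
    have g2 : v ≤ w₂ := not_lt.1 fun h => h2 (hdy0 _ h)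
    have m1 : w₁ ≠ u → pos p u < pos p w₁ := fun h =>
      hmono _ _ (Fin.lt_def.1 (lt_of_le_of_ne g1 (Ne.symm h)))
    have m2 : w₂ ≠ v → pos p v < pos p w₂ := fun h =>
      hmono _ _ (Fin.lt_def.1 (lt_of_le_of_ne g2 (Ne.symm h)))
    have m1' : pos p u ≤ pos p w₁ := by
      by_cases h : w₁ = u
      · rw [h]
      · exact (m1 h).le
    have m2' : pos p v ≤ pos p w₂ := by
      by_cases h : w₂ = v
      · rw [h]
      · exact (m2 h).le
    constructor
    · by_contra h
      have := m1 h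
      omega
    · by_contra h
      have := m2 h
      omega
  have e3 : ∑ e : Fin (p * p) × Fin (p * p), cc p s e * (dx e.1 * dy e.2) =
      cc p s (u, v) * (dx u * dy v) := by
    rw [Finset.sum_eq_single (u, v)]
    · intro e _ he
      by_contra hne
      have h1 : cc p s e ≠ 0 := left_ne_zero_of_mul hne
      have h2 := right_ne_zero_of_mul hne
      have h3 : pos p e.1 + pos p e.2 = s := by
        by_contra h
        exact h1 (by unfold cc; rw [if_neg (fun hh => h hh.2)])
      obtain ⟨k1, k2⟩ := key e.1 e.2 (left_ne_zero_of_mul h2) (right_ne_zero_of_mul h2) h3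
      exact he (Prod.ext k1 k2)
    · intro h
      exact absurd (mem_univ _) h
  have e4 : ∑ e : Fin (p * p) × Fin (p * p), cc p s e * (dy e.1 * dx e.2) =
      cc p s (v, u) * (dy v * dx u) := by
    rw [Finset.sum_eq_single (v, u)]
    · intro e _ he
      by_contra hne
      have h1 : cc p s e ≠ 0 := left_ne_zero_of_mul hne
      have h2 := right_ne_zero_of_mul hne
      have h3 : pos p e.1 + pos p e.2 = s := by
        by_contra h
        exact h1 (by unfold cc; rw [if_neg (fun hh => h hh.2)])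
      obtain ⟨k1, k2⟩ := key e.2 e.1 (right_ne_zero_of_mul h2) (left_ne_zero_of_mul h2)
        (by rw [add_comm]; exact h3)
      exact he (Prod.ext k2 k1)
    · intro h
      exact absurd (mem_univ _) h
  simp only [mul_add] at e1
  rw [sum_add_distrib, e3, e4] at e1
  have d1 : dx u = 1 := bz_diff hxu
  have d2 : dy v = 1 := bz_diff hyv
  rw [d1, d2] at e1
  have c1 : pos p u + pos p v = s := hs.symm
  have c2 : pos p v + pos p u = s := by rw [add_comm]
  rcases lt_or_gt_of_ne huv with hlt | hlt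
  · have a1 : cc p s (u, v) = 1 := by unfold cc; rw [if_pos ⟨hlt, c1⟩]
    have a2 : cc p s (v, u) = 0 := by
      unfold cc; rw [if_neg (fun hh => absurd hh.1 (not_lt.2 (le_of_lt hlt)))]
    rw [a1, a2] at e1
    exact absurd e1 (by decide)
  · have a1 : cc p s (v, u) = 1 := by unfold cc; rw [if_pos ⟨hlt, c2⟩]
    have a2 : cc p s (u, v) = 0 := by
      unfold cc; rw [if_neg (fun hh => absurd hh.1 (not_lt.2 (le_of_lt hlt)))]
    rw [a1, a2] at e1
    exact absurd e1 (by decide)

end Pool.Agent.H822R5.LN.TCRO
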