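import Pool.Agent.H822R5.LN.Defs

set_option autoImplicit false

open Finset

namespace Pool.Agent.H822R5.LN.TCSP

open Pool.Agent.H822R5.LN

theorem CSP : S_card_Sp := by
  intro p hp
  unfold Sp
  refine Finset.card_image_le.trans ?_
  have hsub : ((range (2 * p - 1) ×ˢ range (2 * p - 1)).filter
      (fun e : ℕ × ℕ => e.2 % p = e.1 * e.1 % p)) ⊆
      (range (2 * p) ×ˢ range 2).image (fun e : ℕ × ℕ => (e.1, e.1 * e.1 % p + e.2 * p)) := by
    intro e he
    simp only [Finset.mem_filter, Finset.mem_product, Finset.mem_range, Finset.mem_image,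
      Prod.exists] at he ⊢
    obtain ⟨⟨h1, h2⟩, h3⟩ := he
    refine ⟨e.1, e.2 / p, ⟨by omega, ?_⟩, ?_⟩
    · rw [Nat.div_lt_iff_lt_mul (by omega)]
      omega
    · ext
      · rfl
      · simp only
        rw [← h3]
        have := Nat.mod_add_div e.2 p
        rw [mul_comm (e.2 / p) p]
        exact this
  refine (Finset.card_le_card hsub).trans (Finset.card_image_le.trans ?_)
  rw [Finset.card_product, Finset.card_range, Finset.card_range]
  omega

end Pool.Agent.H822R5.LN.TCSP
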