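import Mathlib
import Pool.Agent.H554R2.Lin.Defs

/-!
# A linear context-free language which is hard for branching programs of length `k n`: definitions
-/

set_option autoImplicit false

open Finset

namespace Pool.Agent.H822R5.LN

open Pool.Agent.H554R2.Sem Pool.Agent.H554R2.Coin Pool.Agent.H554R2.Lin

/-- A linear context-free grammar over the alphabet `α`: finitely many nonterminals, a start
symbol, finitely many rules `A → u B v` and finitely many rules `A → u`. -/
structure LinGrammar (α : Type) where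
  /-- the nonterminals -/
  NT : Type
  /-- there are finitely many of them -/
  [fintype : Fintype NT]
  /-- the start symbol -/
  start : NT
  /-- the rules `A → u B v` -/
  inner : Set (NT × List α × NT × List α)
  /-- the rules `A → u` -/
  last : Set (NT × List α)
  inner_fin : inner.Finite
  last_fin : last.Finite

attribute [instance] LinGrammar.fintype

/-- The word `w` can be derived from the nonterminal `A`. -/
inductive LinGrammar.Gen {α : Type} (G : LinGrammar α) : G.NT → List α → Prop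
  | last (A : G.NT) (u : List α) (h : (A, u) ∈ G.last) : G.Gen A u
  | inner (A B : G.NT) (u v w : List α) (h : (A, u, B, v) ∈ G.inner) (hw : G.Gen B w) :
      G.Gen A (u ++ w ++ v)

/-- The language generated by the grammar. -/
def LinGrammar.language {α : Type} (G : LinGrammar α) : Set (List α) := {w | G.Gen G.start w}

/-! ### the grammar -/

/-- the nonterminals: `z` start, `l` extra letters on the left, `r` extra letters on the right,
`t q` the symmetric part, the parity of the outer pairs being `q` -/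
inductive NTs
  | z | l | r | t (q : Bool)
  deriving DecidableEq, Fintype

/-- the rules `A → u B v` -/
inductive Inner : NTs × List Bool × NTs × List Bool → Prop
  | zl (u : List Bool) (h : u.length < 3) : Inner (.z, [], .l, u)
  | zr (u : List Bool) (h : u.length < 3) : Inner (.z, [], .r, u)
  | ll (a b c : Bool) : Inner (.l, [a, b, c], .l, [])
  | lt : Inner (.l, [], .t false, [])
  | rr (a b c : Bool) : Inner (.r, [], .r, [a, b, c])
  | rt : Inner (.r, [], .t false, [])
  | tt (q a b c a' b' c' : Bool) :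
      Inner (.t q, [a, b, c], .t (xor q (a && a')), [a', b', c'])

/-- the rules `A → u` -/
inductive Last : NTs × List Bool → Prop
  | t (q a g : Bool) (h : q ≠ g) : Last (.t q, [a, true, g])

/-- T1a -/
def S_inner_fin : Prop := {p | Inner p}.Finite

/-- T1b -/
def S_last_fin : Prop := {p | Last p}.Finite

/-- the value, the flag and the target of the `l`-th letter (three bits) -/
def val (w : List Bool) (l : ℕ) : Bool := w.getD (3 * l) false
/-- the flag -/
def flg (w : List Bool) (l : ℕ) : Bool := w.getD (3 * l + 1) false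
/-- the target -/
def tgt (w : List Bool) (l : ℕ) : Bool := w.getD (3 * l + 2) false

/-- the parity of the number of the pairs of ones at the same distance from the centre `l`, among
the first `K` letters -/
def par (w : List Bool) (K l : ℕ) : Bool :=
  decide (Odd ((range K).filter (fun t => 1 ≤ t ∧ t ≤ l ∧ l + t < K ∧ val w (l - t) = true ∧
    val w (l + t) = true)).card)

/-- The word belongs to the language. -/
def Mem (w : List Bool) : Prop :=
  ∃ l < w.length / 3, flg w l = true ∧ par w (w.length / 3) l ≠ tgt w l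

/-- T1c: derivations from `t q`, for any grammar with these rules -/
def S_gen_t : Prop := ∀ (G : LinGrammar Bool) (e : G.NT ≃ NTs),
  (∀ A u B v, (A, u, B, v) ∈ G.inner ↔ Inner (e A, u, e B, v)) →
  (∀ A u, (A, u) ∈ G.last ↔ Last (e A, u)) →
  ∀ q w, G.Gen (e.symm (.t q)) w ↔ ∃ d, w.length = 3 * (2 * d + 1) ∧ flg w d = true ∧
    xor q (par w (2 * d + 1) d) ≠ tgt w d

/-- T1d: derivations from `l`, `r` -/
def S_gen_lr : Prop := ∀ (G : LinGrammar Bool) (e : G.NT ≃ NTs),
  (∀ A u B v, (A, u, B, v) ∈ G.inner ↔ Inner (e A, u, e B, v)) →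
  (∀ A u, (A, u) ∈ G.last ↔ Last (e A, u)) →
  ∀ w, (G.Gen (e.symm .l) w ↔ ∃ w₁ w₂, w = w₁ ++ w₂ ∧ 3 ∣ w₁.length ∧
      G.Gen (e.symm (.t false)) w₂) ∧
    (G.Gen (e.symm .r) w ↔ ∃ w₁ w₂, w = w₁ ++ w₂ ∧ 3 ∣ w₂.length ∧
      G.Gen (e.symm (.t false)) w₁)

/-- T1e: the language -/
def S_language : Prop := ∀ (G : LinGrammar Bool) (e : G.NT ≃ NTs), e G.start = .z →
  (∀ A u B v, (A, u, B, v) ∈ G.inner ↔ Inner (e A, u, e B, v)) →
  (∀ A u, (A, u) ∈ G.last ↔ Last (e A, u)) →
  ∀ w, w ∈ G.language ↔ Mem w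

/-! ### the forms -/

/-- the position of the variable `v` -/
def pos (p : ℕ) (v : ℕ) : ℕ := v % p + 2 * p * (v / p)

/-- the sums of the flagged centres -/
def Sp (p : ℕ) : Finset ℕ :=
  ((range (2 * p - 1) ×ˢ range (2 * p - 1)).filter (fun e => e.2 % p = e.1 * e.1 % p)).image
    (fun e => e.1 + 2 * p * e.2)

/-- the parity of the number of the pairs of ones with the sum `s` -/
def form (p s : ℕ) (x : Pt (p * p)) : Bool :=
  decide (Odd (univ.filter (fun e : Fin (p * p) × Fin (p * p) => e.1 < e.2 ∧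
    pos p e.1 + pos p e.2 = s ∧ x e.1 = true ∧ x e.2 = true)).card)

/-- T3a: few centres -/
def S_card_Sp : Prop := ∀ p : ℕ, 1 ≤ p → (Sp p).card ≤ 4 * p

/-- T3b: the sums of the positions of two large sets of variables contain a flagged one -/
def S_expand : Prop := ∀ p : ℕ, p.Prime → 3 ≤ p → ∀ P R : Finset (Fin (p * p)),
  (∀ u ∈ P, ∀ v ∈ R, pos p u + pos p v ∉ Sp p) → P.card * R.card ≤ p ^ 3

/-- T3c: the position is strictly increasing -/
def S_pos : Prop := ∀ p : ℕ, 1 ≤ p → (∀ u v : ℕ, u < v → pos p u < pos p v) ∧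
  ∀ v < p * p, pos p v < 2 * p * p

/-! ### rectangles -/

/-- T4a: the first differences of a set of points -/
def S_first : Prop := ∀ (m : ℕ) (A : Finset (Fin m)) (X : Finset (Pt m)) (x0 : Pt m),
  (∀ x ∈ X, ∀ v, v ∉ A → x v = x0 v) →
  ∃ P : Finset (Fin m), P ⊆ A ∧ X.card ≤ 2 ^ P.card ∧
    ∀ u ∈ P, ∃ x ∈ X, ∃ x' ∈ X, x u ≠ x' u ∧ ∀ v < u, x v = x' v

/-- T4b: if `x, x'` (`y, y'`) have the first difference `u` (`v`), the form with the sum
`pos u + pos v` is not constant on the four hybrids -/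
def S_cross : Prop := ∀ (p : ℕ), 1 ≤ p → ∀ (A B : Finset (Fin (p * p))), Disjoint A B →
  ∀ x0 x x' y y' : Pt (p * p),
  (∀ v, v ∉ A → x v = x0 v) → (∀ v, v ∉ A → x' v = x0 v) →
  (∀ v, v ∉ B → y v = x0 v) → (∀ v, v ∉ B → y' v = x0 v) →
  ∀ u ∈ A, ∀ v ∈ B, x u ≠ x' u → (∀ w < u, x w = x' w) → y v ≠ y' v → (∀ w < v, y w = y' w) →
  ∀ c : Bool, ¬ (form p (pos p u + pos p v) (merge A x y) = c ∧
    form p (pos p u + pos p v) (merge A x' y) = c ∧
    form p (pos p u + pos p v) (merge A x y') = c ∧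
    form p (pos p u + pos p v) (merge A x' y') = c)

/-- T4c: there are no large rectangles on which all the forms are constant -/
def S_rect : Prop := ∀ (p : ℕ), p.Prime → 3 ≤ p → ∀ (K : Finset (Pt (p * p))) (a b g : ℕ),
  Nonempty (Rect K a b g) → ∀ c : ℕ → Bool, (∀ x ∈ K, ∀ s ∈ Sp p, form p s x = c s) →
  g ≤ a → g ≤ b → (a - g) * (b - g) ≤ p ^ 3

/-! ### programs -/

/-- the point obtained from `x` by putting constants or variables -/
def sub {n m : ℕ} (φ : Fin n → Fin m ⊕ Bool) (x : Pt m) : Pt n :=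
  fun j => match φ j with
    | Sum.inl v => x v
    | Sum.inr c => c

/-- T2a: substitution in a program -/
def S_sub : Prop := ∀ (n m : ℕ), 0 < m → ∀ (φ : Fin n → Fin m ⊕ Bool) (P : BP (Fin n) Bool),
  ∃ P' : BP (Fin m) Bool, Fintype.card P'.State = Fintype.card P.State ∧
    (∀ x l b, P.Comp (sub φ x) l b → ∃ l', l'.length = l.length ∧ P'.Comp x l' b) ∧
    ∀ x l b, P'.Comp x l b → ∃ l', l'.length = l.length ∧ P.Comp (sub φ x) l' b

/-- T2b: the words -/
def S_words : Prop := ∀ (p n : ℕ), 1 ≤ p → 3 * (4 * p * p + 1) ≤ n → ∀ c : ℕ → Bool,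
  ∃ φ : Fin n → Fin (p * p) ⊕ Bool, ∀ x : Pt (p * p),
    Mem (List.ofFn (sub φ x)) ↔ ∃ s ∈ Sp p, form p s x ≠ c s

/-- T5a: a popular vector of values -/
def S_popular : Prop := ∀ p : ℕ, 1 ≤ p → ∃ c : ℕ → Bool,
  2 ^ (p * p) ≤ 2 ^ (4 * p) * (univ.filter (fun x : Pt (p * p) => ∀ s ∈ Sp p, form p s x = c s)).card

/-- T5b: primes -/
def S_prime : Prop := ∀ M : ℕ, ∃ N : ℕ, ∀ n ≥ N, ∃ p : ℕ, p.Prime ∧ 3 ≤ p ∧ M ≤ p ∧
  3 * (4 * p * p + 1) ≤ n ∧ n ≤ 60 * (p * p)

/-- T6: the theorem -/
def S_main : Prop := ∃ G : LinGrammar Bool, ∀ k : ℕ, ∃ D : ℕ, 0 < D ∧ ∀ n ≥ D,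
  ∀ P : BP (Fin n) Bool, Fintype.card P.State < 2 ^ (n / D) →
    (∀ x l, P.Comp x l false → List.ofFn x ∉ G.language) →
    ∃ x : Pt n, List.ofFn x ∉ G.language ∧ ∀ l, P.Comp x l false → k * n < l.length

end Pool.Agent.H822R5.LN
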