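import Pool.Agent.H822R5.LN.Defs

/-!
# Sums of positions: the second moment in `F × F`
-/

set_option autoImplicit false

open Finset

namespace Pool.Agent.H822R5.LN.TEXP

open Pool.Agent.H822R5.LN
open Pool.Agent.H554R2.Sem Pool.Agent.H554R2.Coin Pool.Agent.H554R2.Lin

section field

variable {F : Type} [Field F] [Fintype F] [DecidableEq F]

/-- the incidence -/
def inc (w v : F × F) : ℤ := if w.2 + v.2 = (w.1 + v.1) ^ 2 then 1 else 0

theorem sum_inc (v : F × F) : ∑ w : F × F, inc w v = (Fintype.card F : ℤ) := by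
  rw [Fintype.sum_prod_type]
  have h : ∀ a : F, ∑ b : F, inc (a, b) v = 1 := by
    intro a
    have h1 : ∀ b : F, inc (a, b) v = if b = (a + v.1) ^ 2 - v.2 then (1 : ℤ) else 0 := by
      intro b
      unfold inc
      simp only [eq_sub_iff_add_eq]
    simp only [h1]
    rw [Finset.sum_ite_eq']
    simp
  simp only [h]
  simp

omit [Fintype F] in
theorem inc_mul_self (w v : F × F) : inc w v * inc w v = inc w v := by
  unfold inc; split_ifs <;> simp

theorem sum_inc_mul (h2 : (2 : F) ≠ 0) (v v' : F × F) (hv : v ≠ v') :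
    ∑ w : F × F, inc w v * inc w v' ≤ 1 := by
  have h1 : ∀ w : F × F, inc w v * inc w v' =
      if (w.2 + v.2 = (w.1 + v.1) ^ 2 ∧ w.2 + v'.2 = (w.1 + v'.1) ^ 2) then (1 : ℤ) else 0 := by
    intro w
    unfold inc
    by_cases ha : w.2 + v.2 = (w.1 + v.1) ^ 2 <;>
      by_cases hb : w.2 + v'.2 = (w.1 + v'.1) ^ 2 <;> simp [ha, hb]
  simp only [h1]
  rw [Finset.sum_boole]
  have h3 : (univ.filter (fun w : F × F => w.2 + v.2 = (w.1 + v.1) ^ 2 ∧
      w.2 + v'.2 = (w.1 + v'.1) ^ 2)).card ≤ 1 := by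
    rw [Finset.card_le_one]
    intro w hw w' hw'
    rw [Finset.mem_filter] at hw hw'
    obtain ⟨-, a1, a2⟩ := hw
    obtain ⟨-, b1, b2⟩ := hw'
    have hne : v.1 - v'.1 ≠ 0 := by
      intro h0
      have h1' : v.1 = v'.1 := sub_eq_zero.mp h0
      apply hv
      have h2' : v.2 = v'.2 := by
        rw [h1'] at a1
        have := a1.trans a2.symm
        exact add_left_cancel this
      exact Prod.ext h1' h2'
    have h4 : (v.1 - v'.1) * (2 * (w.1 - w'.1)) = 0 := by
      linear_combination -a1 + a2 + b1 - b2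
    have h5 : w.1 = w'.1 := by
      rcases mul_eq_zero.mp h4 with h | h
      · exact absurd h hne
      · rcases mul_eq_zero.mp h with h | h
        · exact absurd h h2
        · exact sub_eq_zero.mp h
    have h6 : w.2 = w'.2 := by
      rw [h5] at a1
      exact add_right_cancel (a1.trans b1.symm)
    exact Prod.ext h5 h6
  exact_mod_cast h3

theorem field_bound (h2 : (2 : F) ≠ 0) (P R : Finset (F × F))
    (h : ∀ u ∈ P, ∀ v ∈ R, u.2 + v.2 ≠ (u.1 + v.1) ^ 2) :
    P.card * R.card ≤ (Fintype.card F) ^ 3 := by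
  set q : ℤ := (Fintype.card F : ℤ) with hq
  have hq0 : 0 ≤ q := by positivity
  set r : ℤ := (R.card : ℤ) with hr
  have hr0 : 0 ≤ r := by positivity
  let deg : F × F → ℤ := fun w => ∑ v ∈ R, inc w v
  have hdeg1 : ∑ w : F × F, deg w = q * r := by
    simp only [deg]
    rw [Finset.sum_comm]
    simp only [sum_inc]
    rw [Finset.sum_const, nsmul_eq_mul, mul_comm]
  have hdeg2 : ∑ w : F × F, deg w ^ 2 ≤ q * r + r ^ 2 := by
    have e1 : ∀ w : F × F, deg w ^ 2 = ∑ v ∈ R, ∑ v' ∈ R, inc w v * inc w v' := by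
      intro w
      simp only [deg]
      rw [sq, Finset.sum_mul_sum]
    simp only [e1]
    rw [Finset.sum_comm]
    have e2 : ∀ v ∈ R, ∑ w : F × F, ∑ v' ∈ R, inc w v * inc w v' ≤ q + r := by
      intro v hv
      rw [Finset.sum_comm]
      have e3 : ∀ v' ∈ R, ∑ w : F × F, inc w v * inc w v' ≤ (if v = v' then q else 0) + 1 := by
        intro v' _
        by_cases hvv : v = v'
        · subst hvv
          simp only [inc_mul_self, if_true, sum_inc]
          linarith
        · rw [if_neg hvv, zero_add]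
          exact sum_inc_mul h2 v v' hvv
      refine (Finset.sum_le_sum e3).trans ?_
      rw [Finset.sum_add_distrib, Finset.sum_ite_eq, if_pos hv, Finset.sum_const, nsmul_eq_mul,
        mul_one]
    refine (Finset.sum_le_sum e2).trans ?_
    rw [Finset.sum_const, nsmul_eq_mul, ← hr]
    nlinarith
  have hcard : ∑ _w : F × F, (1 : ℤ) = q ^ 2 := by
    rw [Finset.sum_const, nsmul_eq_mul, Finset.card_univ, Fintype.card_prod, mul_one]
    push_cast
    ring
  have hsum : ∑ w : F × F, (q * deg w - r) ^ 2 ≤ q ^ 3 * r := by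
    have e1 : ∀ w : F × F, (q * deg w - r) ^ 2 = q ^ 2 * deg w ^ 2 - 2 * q * r * deg w +
        r ^ 2 * 1 := by
      intro w; ring
    simp only [e1]
    rw [Finset.sum_add_distrib, Finset.sum_sub_distrib, ← Finset.mul_sum, ← Finset.mul_sum,
      ← Finset.mul_sum, hdeg1, hcard]
    have := mul_le_mul_of_nonneg_left hdeg2 (sq_nonneg q)
    nlinarith
  have hP : (P.card : ℤ) * r ^ 2 ≤ ∑ w : F × F, (q * deg w - r) ^ 2 := by
    have e1 : ∀ w ∈ P, (q * deg w - r) ^ 2 = r ^ 2 := by
      intro w hw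
      have : deg w = 0 := by
        simp only [deg]
        apply Finset.sum_eq_zero
        intro v hv
        unfold inc
        rw [if_neg (h w hw v hv)]
      rw [this]; ring
    calc (P.card : ℤ) * r ^ 2 = ∑ w ∈ P, (q * deg w - r) ^ 2 := by
          rw [Finset.sum_congr rfl e1, Finset.sum_const, nsmul_eq_mul]
      _ ≤ ∑ w : F × F, (q * deg w - r) ^ 2 :=
          Finset.sum_le_sum_of_subset_of_nonneg (Finset.subset_univ _)
            (fun w _ _ => sq_nonneg _)
  have hfin : (P.card : ℤ) * r ^ 2 ≤ q ^ 3 * r := hP.trans hsum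
  rcases hr0.eq_or_lt with h0 | hpos
  · have : R.card = 0 := by
      have h1 : (R.card : ℤ) = 0 := h0.symm
      exact_mod_cast h1
    rw [this]; simp
  · have h3 : (P.card : ℤ) * r ≤ q ^ 3 := by
      have h4 : ((P.card : ℤ) * r) * r ≤ q ^ 3 * r := by
        calc ((P.card : ℤ) * r) * r = (P.card : ℤ) * r ^ 2 := by ring
          _ ≤ q ^ 3 * r := hfin
      exact le_of_mul_le_mul_right h4 hpos
    rw [hr, hq] at h3
    exact_mod_cast h3

end field

theorem EXP : S_expand := by
  intro p hp hp3 P R hPR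
  have : Fact p.Prime := ⟨hp⟩
  have hp0 : 0 < p := hp.pos
  let f : Fin (p * p) → ZMod p × ZMod p := fun u => (((u : ℕ) % p : ℕ), ((u : ℕ) / p : ℕ))
  have hf : Function.Injective f := by
    intro u v huv
    have h1 : (((u : ℕ) % p : ℕ) : ZMod p) = (((v : ℕ) % p : ℕ) : ZMod p) :=
      congrArg Prod.fst huv
    have h2 : (((u : ℕ) / p : ℕ) : ZMod p) = (((v : ℕ) / p : ℕ) : ZMod p) :=
      congrArg Prod.snd huv
    rw [ZMod.natCast_eq_natCast_iff'] at h1 h2
    rw [Nat.mod_mod, Nat.mod_mod] at h1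
    have hu : (u : ℕ) / p < p := Nat.div_lt_of_lt_mul u.2
    have hv : (v : ℕ) / p < p := Nat.div_lt_of_lt_mul v.2
    rw [Nat.mod_eq_of_lt hu, Nat.mod_eq_of_lt hv] at h2
    apply Fin.ext
    rw [← Nat.mod_add_div (u : ℕ) p, ← Nat.mod_add_div (v : ℕ) p, h1, h2]
  have h2 : (2 : ZMod p) ≠ 0 := by
    intro h
    have h1 : ((2 : ℕ) : ZMod p) = 0 := by exact_mod_cast h
    rw [ZMod.natCast_eq_zero_iff] at h1
    have := Nat.le_of_dvd (by norm_num) h1
    omega
  have key := field_bound h2 (P.image f) (R.image f) (by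
    intro u' hu' v' hv'
    rw [Finset.mem_image] at hu' hv'
    obtain ⟨u, hu, rfl⟩ := hu'
    obtain ⟨v, hv, rfl⟩ := hv'
    intro heq
    apply hPR u hu v hv
    simp only [f] at heq
    have h1 : ((((u : ℕ) / p + (v : ℕ) / p : ℕ)) : ZMod p) =
        (((((u : ℕ) % p + (v : ℕ) % p) * ((u : ℕ) % p + (v : ℕ) % p) : ℕ)) : ZMod p) := by
      push_cast
      rw [heq]; ring
    rw [ZMod.natCast_eq_natCast_iff'] at h1
    unfold Sp
    rw [Finset.mem_image]
    refine ⟨((u : ℕ) % p + (v : ℕ) % p, (u : ℕ) / p + (v : ℕ) / p), ?_, ?_⟩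
    · rw [Finset.mem_filter, Finset.mem_product, Finset.mem_range, Finset.mem_range]
      refine ⟨⟨?_, ?_⟩, h1⟩
      · have a1 := Nat.mod_lt (u : ℕ) hp0
        have a2 := Nat.mod_lt (v : ℕ) hp0
        simp only
        omega
      · have a1 : (u : ℕ) / p < p := Nat.div_lt_of_lt_mul u.2
        have a2 : (v : ℕ) / p < p := Nat.div_lt_of_lt_mul v.2
        simp only
        omega
    · unfold pos
      ring)
  rw [Finset.card_image_of_injective _ hf, Finset.card_image_of_injective _ hf, ZMod.card] at key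
  exact key

end Pool.Agent.H822R5.LN.TEXP
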