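import Pool.Agent.H822R5.LN.Defs

set_option autoImplicit false

namespace Pool.Agent.H822R5.LN.TFIN

open Pool.Agent.H822R5.LN

theorem FIN : S_inner_fin ∧ S_last_fin := by
  have hL : {l : List Bool | l.length ≤ 3}.Finite := List.finite_length_le Bool 3
  constructor
  · refine Set.Finite.subset
      ((Set.finite_univ (α := NTs)).prod (hL.prod ((Set.finite_univ (α := NTs)).prod hL))) ?_
    rintro ⟨A, u, B, v⟩ h
    simp only [Set.mem_setOf_eq] at h
    simp only [Set.mem_prod, Set.mem_univ, Set.mem_setOf_eq, true_and]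
    cases h <;> simp <;> omega
  · refine Set.Finite.subset ((Set.finite_univ (α := NTs)).prod hL) ?_
    rintro ⟨A, u⟩ h
    simp only [Set.mem_setOf_eq] at h
    simp only [Set.mem_prod, Set.mem_univ, Set.mem_setOf_eq, true_and]
    cases h
    simp

end Pool.Agent.H822R5.LN.TFIN
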