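import Pool.Agent.H822R5.LN.Defs

set_option autoImplicit false

open Finset

namespace Pool.Agent.H822R5.LN.TFST

open Pool.Agent.H822R5.LN
open Pool.Agent.H554R2.Sem

theorem FST : S_first := by
  classical
  intro m A X x0 hX
  set P : Finset (Fin m) := univ.filter (fun u => ∃ x ∈ X, ∃ x' ∈ X, x u ≠ x' u ∧
    ∀ v < u, x v = x' v) with hP
  refine ⟨P, ?_, ?_, ?_⟩
  · intro u hu
    obtain ⟨x, hx, x', hx', hne, -⟩ := (Finset.mem_filter.1 hu).2
    by_contra h
    exact hne (by rw [hX x hx u h, hX x' hx' u h])
  · have hinj : Set.InjOn (fun (x : Pt m) (i : P) => x i) X := by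
      intro x hx x' hx' h
      by_contra hne
      have hex : ∃ u, x u ≠ x' u := by
        by_contra h'
        push Not at h'
        exact hne (funext h')
      set D : Finset (Fin m) := univ.filter (fun u => x u ≠ x' u) with hD
      have hDn : D.Nonempty := by
        obtain ⟨u, hu⟩ := hex
        exact ⟨u, by simp [hD, hu]⟩
      set u := D.min' hDn with hu
      have huD : u ∈ D := D.min'_mem hDn
      have hune : x u ≠ x' u := (Finset.mem_filter.1 huD).2
      have hlt : ∀ v < u, x v = x' v := by
        intro v hv
        by_contra h'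
        have : u ≤ v := D.min'_le v (by simp [hD, h'])
        exact absurd hv (not_lt.2 this)
      have huP : u ∈ P := by
        rw [hP, Finset.mem_filter]
        exact ⟨Finset.mem_univ _, x, hx, x', hx', hune, hlt⟩
      exact hune (congrFun h ⟨u, huP⟩)
    have := Finset.card_le_card_of_injOn (s := X) (t := (univ : Finset (P → Bool)))
      (fun (x : Pt m) (i : P) => x i) (fun _ _ => Finset.mem_univ _) hinj
    refine this.trans (le_of_eq ?_)
    rw [Finset.card_univ, Fintype.card_fun, Fintype.card_bool, Fintype.card_coe]
  · intro u hu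
    exact (Finset.mem_filter.1 hu).2

end Pool.Agent.H822R5.LN.TFST
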