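import Pool.Agent.H822R5.LN.Defs

set_option autoImplicit false

namespace Pool.Agent.H822R5.LN.TGLR

open Pool.Agent.H822R5.LN

variable {G : LinGrammar Bool} (e : G.NT ≃ NTs)

theorem fwd (hi : ∀ A u B v, (A, u, B, v) ∈ G.inner ↔ Inner (e A, u, e B, v))
    (hl : ∀ A u, (A, u) ∈ G.last ↔ Last (e A, u)) (A : G.NT) (w : List Bool) (h : G.Gen A w) :
    (e A = .l → ∃ w₁ w₂, w = w₁ ++ w₂ ∧ 3 ∣ w₁.length ∧ G.Gen (e.symm (.t false)) w₂) ∧
    (e A = .r → ∃ w₁ w₂, w = w₁ ++ w₂ ∧ 3 ∣ w₂.length ∧ G.Gen (e.symm (.t false)) w₁) := by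
  induction h with
  | last A u h =>
    have h1 := (hl A u).1 h
    constructor
    · intro hA
      rw [hA] at h1
      cases h1
    · intro hA
      rw [hA] at h1
      cases h1
  | inner A B u v w h hw ih =>
    have h1 := (hi A u B v).1 h
    constructor
    · intro hA
      rw [hA] at h1
      generalize hB : e B = B' at h1
      cases h1 with
      | ll a b c =>
        obtain ⟨w₁, w₂, h2, h3, h4⟩ := ih.1 hB
        refine ⟨a :: b :: c :: w₁, w₂, by simp [h2], ?_, h4⟩
        simp only [List.length_cons]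
        omega
      | lt =>
        refine ⟨[], w, by simp, by simp, ?_⟩
        have : B = e.symm (.t false) := by rw [← hB]; simp
        rw [← this]; exact hw
    · intro hA
      rw [hA] at h1
      generalize hB : e B = B' at h1
      cases h1 with
      | rr a b c =>
        obtain ⟨w₁, w₂, h2, h3, h4⟩ := ih.2 hB
        refine ⟨w₁, w₂ ++ [a, b, c], by simp [h2], ?_, h4⟩
        simp only [List.length_append, List.length_cons, List.length_nil]
        omega
      | rt =>
        refine ⟨w, [], by simp, by simp, ?_⟩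
        have : B = e.symm (.t false) := by rw [← hB]; simp
        rw [← this]; exact hw

theorem bwd_l (hi : ∀ A u B v, (A, u, B, v) ∈ G.inner ↔ Inner (e A, u, e B, v))
    (w₂ : List Bool) (h2 : G.Gen (e.symm (.t false)) w₂) :
    ∀ (k : ℕ) (w₁ : List Bool), w₁.length = 3 * k → G.Gen (e.symm .l) (w₁ ++ w₂) := by
  intro k
  induction k with
  | zero =>
    intro w₁ h
    have : w₁ = [] := List.length_eq_zero_iff.1 (by omega)
    subst this
    have h3 : (e.symm .l, ([] : List Bool), e.symm (.t false), ([] : List Bool)) ∈ G.inner := by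
      rw [hi]; simp only [Equiv.apply_symm_apply]; exact Inner.lt
    have h4 := LinGrammar.Gen.inner _ _ _ _ _ h3 h2
    simpa using h4
  | succ k ih =>
    intro w₁ h
    match w₁, h with
    | a :: b :: c :: w, h =>
      have h1 : w.length = 3 * k := by simp only [List.length_cons] at h; omega
      have h3 : (e.symm .l, [a, b, c], e.symm .l, ([] : List Bool)) ∈ G.inner := by
        rw [hi]; simp only [Equiv.apply_symm_apply]; exact Inner.ll a b c
      have h4 := LinGrammar.Gen.inner _ _ _ _ _ h3 (ih w h1)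
      simpa using h4
    | [], h => simp at h
    | [_], h => simp at h; omega
    | [_, _], h => simp at h; omega

theorem bwd_r (hi : ∀ A u B v, (A, u, B, v) ∈ G.inner ↔ Inner (e A, u, e B, v))
    (w₁ : List Bool) (h2 : G.Gen (e.symm (.t false)) w₁) :
    ∀ (k : ℕ) (w₂ : List Bool), w₂.length = 3 * k → G.Gen (e.symm .r) (w₁ ++ w₂) := by
  intro k
  induction k with
  | zero =>
    intro w₂ h
    have : w₂ = [] := List.length_eq_zero_iff.1 (by omega)
    subst this
    have h3 : (e.symm .r, ([] : List Bool), e.symm (.t false), ([] : List Bool)) ∈ G.inner := by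
      rw [hi]; simp only [Equiv.apply_symm_apply]; exact Inner.rt
    have h4 := LinGrammar.Gen.inner _ _ _ _ _ h3 h2
    simpa using h4
  | succ k ih =>
    intro w₂ h
    obtain ⟨u, v, huv, hu, hv⟩ : ∃ u v, w₂ = u ++ v ∧ u.length = 3 * k ∧ v.length = 3 :=
      ⟨w₂.take (3 * k), w₂.drop (3 * k), by simp, by simp; omega, by simp; omega⟩
    match v, hv with
    | [a, b, c], _ =>
      have h3 : (e.symm .r, ([] : List Bool), e.symm .r, [a, b, c]) ∈ G.inner := by
        rw [hi]; simp only [Equiv.apply_symm_apply]; exact Inner.rr a b c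
      have h4 := LinGrammar.Gen.inner _ _ _ _ _ h3 (ih u hu)
      rw [huv]
      simpa using h4

theorem GLR : S_gen_lr := by
  intro G e hi hl w
  refine ⟨⟨fun h => ?_, ?_⟩, ⟨fun h => ?_, ?_⟩⟩
  · exact (fwd e hi hl _ _ h).1 (by simp)
  · rintro ⟨w₁, w₂, rfl, ⟨k, hk⟩, h⟩
    exact bwd_l e hi w₂ h k w₁ hk
  · exact (fwd e hi hl _ _ h).2 (by simp)
  · rintro ⟨w₁, w₂, rfl, ⟨k, hk⟩, h⟩
    exact bwd_r e hi w₁ h k w₂ hk

end Pool.Agent.H822R5.LN.TGLR
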