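import Mathlib
import Pool.Agent.H822R5.LN.Defs

/-!
# Derivations of the symmetric part
-/

set_option autoImplicit false

open Finset

namespace Pool.Agent.H822R5.LN.TGTT

open Pool.Agent.H822R5.LN
open Pool.Agent.H554R2.Sem Pool.Agent.H554R2.Coin Pool.Agent.H554R2.Lin

theorem inner_t {q : Bool} {u v : List Bool} {B : NTs} (h : Inner (.t q, u, B, v)) :
    ∃ a b c a' b' c', u = [a, b, c] ∧ v = [a', b', c'] ∧ B = .t (xor q (a && a')) := by
  cases h
  exact ⟨_, _, _, _, _, _, rfl, rfl, rfl⟩

theorem last_t {q : Bool} {u : List Bool} (h : Last (.t q, u)) :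
    ∃ a g, u = [a, true, g] ∧ q ≠ g := by
  cases h
  exact ⟨_, _, rfl, by assumption⟩

/-- the condition -/
def Q (q : Bool) (w : List Bool) : Prop := ∃ d, w.length = 3 * (2 * d + 1) ∧ flg w d = true ∧
    xor q (par w (2 * d + 1) d) ≠ tgt w d

/-- the word with one more pair -/
def ext (a b c a' b' c' : Bool) (w : List Bool) : List Bool := [a, b, c] ++ w ++ [a', b', c']

section

variable {a b c a' b' c' : Bool} {w : List Bool} {d : ℕ}

theorem getD_ext (k : ℕ) (h : k < w.length) :
    (ext a b c a' b' c' w).getD (k + 3) false = w.getD k false := by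
  unfold ext
  rw [List.append_assoc]
  show (w ++ [a', b', c']).getD k false = w.getD k false
  exact List.getD_append _ _ _ _ h

theorem len_ext : (ext a b c a' b' c' w).length = w.length + 6 := by
  unfold ext
  simp only [List.length_append, List.length_cons, List.length_nil]
  omega

theorem val_ext {l : ℕ} (h : 3 * l < w.length) : val (ext a b c a' b' c' w) (l + 1) = val w l := by
  unfold val
  rw [show 3 * (l + 1) = 3 * l + 3 by ring]
  exact getD_ext _ h

theorem flg_ext {l : ℕ} (h : 3 * l + 1 < w.length) :
    flg (ext a b c a' b' c' w) (l + 1) = flg w l := by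
  unfold flg
  rw [show 3 * (l + 1) + 1 = (3 * l + 1) + 3 by ring]
  exact getD_ext _ h

theorem tgt_ext {l : ℕ} (h : 3 * l + 2 < w.length) :
    tgt (ext a b c a' b' c' w) (l + 1) = tgt w l := by
  unfold tgt
  rw [show 3 * (l + 1) + 2 = (3 * l + 2) + 3 by ring]
  exact getD_ext _ h

theorem val_zero : val (ext a b c a' b' c' w) 0 = a := rfl

theorem val_last {l : ℕ} (h : w.length = 3 * l) : val (ext a b c a' b' c' w) (l + 1) = a' := by
  unfold val ext
  rw [show 3 * (l + 1) = 3 * l + 3 by ring, List.append_assoc]
  show (w ++ [a', b', c']).getD (3 * l) false = a'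
  rw [List.getD_append_right _ _ _ _ (by omega), h, Nat.sub_self]
  rfl

/-- the filter set -/
def FS (w : List Bool) (K l : ℕ) : Finset ℕ :=
  (range K).filter (fun t => 1 ≤ t ∧ t ≤ l ∧ l + t < K ∧ val w (l - t) = true ∧
    val w (l + t) = true)

theorem FS_ext (h : w.length = 3 * (2 * d + 1)) :
    FS (ext a b c a' b' c' w) (2 * (d + 1) + 1) (d + 1) =
      if (a && a') = true then insert (d + 1) (FS w (2 * d + 1) d) else FS w (2 * d + 1) d := by
  have h0 : val (ext a b c a' b' c' w) 0 = a := rfl
  have h1 : val (ext a b c a' b' c' w) (2 * d + 1 + 1) = a' := val_last h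
  have key : ∀ t, 1 ≤ t → t ≤ d → val (ext a b c a' b' c' w) (d + 1 - t) = val w (d - t) ∧
      val (ext a b c a' b' c' w) (d + 1 + t) = val w (d + t) := by
    intro t h2 h3
    constructor
    · rw [show d + 1 - t = (d - t) + 1 by omega]
      exact val_ext (by omega)
    · rw [show d + 1 + t = (d + t) + 1 by omega]
      exact val_ext (by omega)
  ext t
  have hiff : t ∈ FS (ext a b c a' b' c' w) (2 * (d + 1) + 1) (d + 1) ↔
      (t = d + 1 ∧ (a && a') = true) ∨ t ∈ FS w (2 * d + 1) d := by
    unfold FS
    simp only [Finset.mem_filter, Finset.mem_range]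
    constructor
    · rintro ⟨h2, h3, h4, h5, h6, h7⟩
      by_cases h8 : t ≤ d
      · right
        obtain ⟨h9, h10⟩ := key t h3 h8
        exact ⟨by omega, h3, h8, by omega, by rw [← h9]; exact h6, by rw [← h10]; exact h7⟩
      · left
        have h9 : t = d + 1 := by omega
        subst h9
        rw [Nat.sub_self] at h6
        rw [show d + 1 + (d + 1) = 2 * d + 1 + 1 by omega] at h7
        refine ⟨rfl, ?_⟩
        rw [h0] at h6
        rw [h1] at h7
        rw [h6, h7]
        rfl
    · rintro (⟨rfl, h2⟩ | ⟨h2, h3, h4, h5, h6, h7⟩)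
      · rw [Bool.and_eq_true] at h2
        refine ⟨by omega, by omega, le_rfl, by omega, ?_, ?_⟩
        · rw [Nat.sub_self, h0]; exact h2.1
        · rw [show d + 1 + (d + 1) = 2 * d + 1 + 1 by omega, h1]; exact h2.2
      · obtain ⟨h9, h10⟩ := key t h3 h4
        exact ⟨by omega, h3, by omega, by omega, by rw [h9]; exact h6, by rw [h10]; exact h7⟩
  rw [hiff]
  by_cases h2 : (a && a') = true
  · rw [if_pos h2, Finset.mem_insert]
    simp [h2]
  · rw [if_neg h2]
    simp [h2]

theorem par_ext (h : w.length = 3 * (2 * d + 1)) :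
    par (ext a b c a' b' c' w) (2 * (d + 1) + 1) (d + 1) = xor (par w (2 * d + 1) d) (a && a') := by
  have h1 : ∀ (w : List Bool) (K l : ℕ), par w K l = decide (Odd (FS w K l).card) :=
    fun _ _ _ => rfl
  rw [h1, h1, FS_ext h]
  by_cases h2 : (a && a') = true
  · have h3 : d + 1 ∉ FS w (2 * d + 1) d := by
      unfold FS
      simp only [Finset.mem_filter, Finset.mem_range]
      rintro ⟨_, _, h4, _⟩
      omega
    rw [if_pos h2, Finset.card_insert_of_notMem h3, h2, Bool.xor_true]
    by_cases h4 : Odd (FS w (2 * d + 1) d).card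
    · have h5 : ¬ Odd ((FS w (2 * d + 1) d).card + 1) := by
        rw [Nat.odd_add_one]; exact not_not.2 h4
      simp [h4, h5]
    · have h5 : Odd ((FS w (2 * d + 1) d).card + 1) := Nat.odd_add_one.2 h4
      simp [h4, h5]
  · rw [if_neg h2]
    have h3 : (a && a') = false := by simpa using h2
    rw [h3, Bool.xor_false]

theorem Q_ext (q : Bool) (h : w.length = 3 * (2 * d + 1)) :
    (flg (ext a b c a' b' c' w) (d + 1) = true ∧
      xor q (par (ext a b c a' b' c' w) (2 * (d + 1) + 1) (d + 1)) ≠
        tgt (ext a b c a' b' c' w) (d + 1)) ↔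
    (flg w d = true ∧ xor (xor q (a && a')) (par w (2 * d + 1) d) ≠ tgt w d) := by
  rw [flg_ext (by omega), tgt_ext (by omega), par_ext h]
  have : xor q (xor (par w (2 * d + 1) d) (a && a')) =
      xor (xor q (a && a')) (par w (2 * d + 1) d) := by
    cases q <;> cases (par w (2 * d + 1) d) <;> cases (a && a') <;> rfl
  rw [this]

end

theorem GTT : S_gen_t := by
  intro G e hI hL q w
  constructor
  · intro h
    have main : ∀ (A : G.NT) (w : List Bool), G.Gen A w → ∀ q, e A = .t q → Q q w := by
      intro A w h
      induction h with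
      | last A u h =>
        intro q hq
        rw [hL, hq] at h
        obtain ⟨a, g, rfl, hg⟩ := last_t h
        refine ⟨0, rfl, rfl, ?_⟩
        have h1 : par [a, true, g] (2 * 0 + 1) 0 = false := by
          unfold par
          rw [decide_eq_false_iff_not]
          have : ((range (2 * 0 + 1)).filter (fun t => 1 ≤ t ∧ t ≤ 0 ∧ 0 + t < 2 * 0 + 1 ∧
            val [a, true, g] (0 - t) = true ∧ val [a, true, g] (0 + t) = true)) = ∅ := by
            apply Finset.filter_eq_empty_iff.2
            rintro t _ ⟨h1, h2, _⟩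
            omega
          rw [this]
          simp
        rw [h1, Bool.xor_false]
        exact hg
      | inner A B u v w h hw ih =>
        intro q hq
        rw [hI, hq] at h
        obtain ⟨a, b, c, a', b', c', rfl, rfl, hB⟩ := inner_t h
        obtain ⟨d, h1, h2⟩ := ih _ hB
        refine ⟨d + 1, ?_, (Q_ext q h1).2 h2⟩
        have := len_ext (a := a) (b := b) (c := c) (a' := a') (b' := b') (c' := c') (w := w)
        show (ext a b c a' b' c' w).length = _
        rw [this, h1]
        ring
    exact main _ w h q (Equiv.apply_symm_apply _ _)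
  · rintro ⟨d, h1, h2⟩
    induction d generalizing q w with
    | zero =>
      obtain ⟨x, y, z, rfl⟩ := List.length_eq_three.1 h1
      obtain ⟨h3, h4⟩ := h2
      have h5 : par [x, y, z] (2 * 0 + 1) 0 = false := by
        unfold par
        rw [decide_eq_false_iff_not]
        have : ((range (2 * 0 + 1)).filter (fun t => 1 ≤ t ∧ t ≤ 0 ∧ 0 + t < 2 * 0 + 1 ∧
          val [x, y, z] (0 - t) = true ∧ val [x, y, z] (0 + t) = true)) = ∅ := by
          apply Finset.filter_eq_empty_iff.2
          rintro t _ ⟨h1, h2, _⟩
          omega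
        rw [this]
        simp
      rw [h5, Bool.xor_false] at h4
      have h6 : y = true := h3
      have h7 : q ≠ z := h4
      subst h6
      apply LinGrammar.Gen.last
      rw [hL, Equiv.apply_symm_apply]
      exact Last.t q x z h7
    | succ d ih =>
      obtain ⟨u, w', v, rfl, hu, hw', hv⟩ : ∃ u w' v : List Bool, w = u ++ w' ++ v ∧
          u.length = 3 ∧ w'.length = 3 * (2 * d + 1) ∧ v.length = 3 := by
        refine ⟨w.take 3, (w.drop 3).take (3 * (2 * d + 1)), (w.drop 3).drop (3 * (2 * d + 1)),
          ?_, ?_, ?_, ?_⟩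
        · rw [List.append_assoc, List.take_append_drop, List.take_append_drop]
        · rw [List.length_take]; omega
        · rw [List.length_take, List.length_drop]; omega
        · rw [List.length_drop, List.length_drop]; omega
      obtain ⟨a, b, c, rfl⟩ := List.length_eq_three.1 hu
      obtain ⟨a', b', c', rfl⟩ := List.length_eq_three.1 hv
      have h3 := (Q_ext (a := a) (b := b) (c := c) (a' := a') (b' := b') (c' := c') q hw').1 h2
      have h4 := ih (xor q (a && a')) w' hw' h3
      refine LinGrammar.Gen.inner _ (e.symm (.t (xor q (a && a')))) [a, b, c] [a', b', c'] w' ?_ h4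
      rw [hI, Equiv.apply_symm_apply, Equiv.apply_symm_apply]
      exact Inner.tt q a b c a' b' c'

end Pool.Agent.H822R5.LN.TGTT
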