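import Pool.Agent.H822R5.LN.Defs

/-!
# The language of the grammar (task LNG, helper488)
-/

set_option autoImplicit false

open Finset

namespace Pool.Agent.H822R5.LN.TLNG

open Pool.Agent.H822R5.LN

theorem getD_mid (w₁ w₂ v : List Bool) (i : ℕ) (x : Bool) (hi : i < w₂.length) :
    (w₁ ++ w₂ ++ v).getD (w₁.length + i) x = w₂.getD i x := by
  rw [List.append_assoc, List.getD_append_right _ _ _ _ (Nat.le_add_right _ _),
    Nat.add_sub_cancel_left, List.getD_append _ _ _ _ hi]

section
variable (w w₁ w₂ v : List Bool) (m d : ℕ) (h1 : w₁.length = 3 * m)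
  (h2 : w₂.length = 3 * (2 * d + 1)) (hw : w = w₁ ++ w₂ ++ v)

include h1 h2 hw

theorem val_mid (i : ℕ) (hi : i < 2 * d + 1) : val w (m + i) = val w₂ i := by
  unfold val
  rw [hw, mul_add, ← h1, getD_mid _ _ _ _ _ (by omega)]

theorem flg_mid (i : ℕ) (hi : i < 2 * d + 1) : flg w (m + i) = flg w₂ i := by
  unfold flg
  rw [hw, mul_add, ← h1, add_assoc, getD_mid _ _ _ _ _ (by omega)]

theorem tgt_mid (i : ℕ) (hi : i < 2 * d + 1) : tgt w (m + i) = tgt w₂ i := by
  unfold tgt
  rw [hw, mul_add, ← h1, add_assoc, getD_mid _ _ _ _ _ (by omega)]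

theorem par_mid (h3 : m = 0 ∨ w.length / 3 = m + (2 * d + 1)) :
    par w (w.length / 3) (m + d) = par w₂ (2 * d + 1) d := by
  have hK : m + (2 * d + 1) ≤ w.length / 3 := by
    have : w.length = w₁.length + w₂.length + v.length := by
      rw [hw, List.length_append, List.length_append]
    omega
  unfold par
  have hset : (range (w.length / 3)).filter (fun t => 1 ≤ t ∧ t ≤ m + d ∧
      m + d + t < w.length / 3 ∧ val w (m + d - t) = true ∧ val w (m + d + t) = true) =
      (range (2 * d + 1)).filter (fun t => 1 ≤ t ∧ t ≤ d ∧ d + t < 2 * d + 1 ∧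
      val w₂ (d - t) = true ∧ val w₂ (d + t) = true) := by
    ext t
    rw [mem_filter, mem_filter, mem_range, mem_range]
    by_cases htd : t ≤ d
    · have e1 : m + d - t = m + (d - t) := by omega
      have e2 : m + d + t = m + (d + t) := by omega
      rw [e1, e2, val_mid w w₁ w₂ v m d h1 h2 hw (d - t) (by omega),
        val_mid w w₁ w₂ v m d h1 h2 hw (d + t) (by omega)]
      constructor
      · rintro ⟨_, g2, _, _, g5, g6⟩
        exact ⟨by omega, g2, htd, by omega, g5, g6⟩
      · rintro ⟨_, g2, _, _, g5, g6⟩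
        exact ⟨by omega, g2, by omega, by omega, g5, g6⟩
    · constructor
      · rintro ⟨g1, g2, g3, g4, _, _⟩
        exfalso
        rcases h3 with h3 | h3
        · omega
        · omega
      · rintro ⟨_, _, g3, _⟩
        exact absurd g3 htd
  rw [hset]

end

theorem start_iff (G : LinGrammar Bool) (e : G.NT ≃ NTs) (hs : e G.start = .z)
    (hi : ∀ A u B v, (A, u, B, v) ∈ G.inner ↔ Inner (e A, u, e B, v))
    (hl : ∀ A u, (A, u) ∈ G.last ↔ Last (e A, u)) (w : List Bool) :
    w ∈ G.language ↔ ∃ w' u, w = w' ++ u ∧ u.length < 3 ∧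
      (G.Gen (e.symm .l) w' ∨ G.Gen (e.symm .r) w') := by
  constructor
  · intro h
    have h' : G.Gen G.start w := h
    generalize hA : G.start = A at h'
    cases h' with
    | last A u h0 =>
      rw [hl, ← hA, hs] at h0
      cases h0
    | inner A B u v w h0 hw =>
      rw [hi, ← hA, hs] at h0
      generalize hB : e B = b at h0
      cases h0 with
      | zl u h0 =>
        refine ⟨w, v, by rw [List.nil_append], h0, Or.inl ?_⟩
        have : B = e.symm .l := by rw [← hB, Equiv.symm_apply_apply]
        rw [← this]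
        exact hw
      | zr u h0 =>
        refine ⟨w, v, by rw [List.nil_append], h0, Or.inr ?_⟩
        have : B = e.symm .r := by rw [← hB, Equiv.symm_apply_apply]
        rw [← this]
        exact hw
  · rintro ⟨w', u, rfl, hu, h | h⟩
    · show G.Gen G.start (w' ++ u)
      have h0 : (G.start, [], e.symm .l, u) ∈ G.inner := by
        rw [hi, hs, Equiv.apply_symm_apply]
        exact Inner.zl u hu
      have := LinGrammar.Gen.inner G.start (e.symm .l) [] u w' h0 h
      rwa [List.nil_append] at this
    · show G.Gen G.start (w' ++ u)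
      have h0 : (G.start, [], e.symm .r, u) ∈ G.inner := by
        rw [hi, hs, Equiv.apply_symm_apply]
        exact Inner.zr u hu
      have := LinGrammar.Gen.inner G.start (e.symm .r) [] u w' h0 h
      rwa [List.nil_append] at this

theorem LNG (h1 : S_gen_t) (h2 : S_gen_lr) : S_language := by
  intro G e hs hi hl w
  rw [start_iff G e hs hi hl w]
  constructor
  · rintro ⟨w', u, rfl, hu, h | h⟩
    · obtain ⟨w₁, w₂, rfl, h3, h⟩ := (h2 G e hi hl w').1.mp h
      obtain ⟨d, g1, g2, g3⟩ := (h1 G e hi hl false w₂).mp h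
      obtain ⟨m, hm⟩ := h3
      have hK : (w₁ ++ w₂ ++ u).length / 3 = m + (2 * d + 1) := by
        rw [List.length_append, List.length_append]
        omega
      refine ⟨m + d, by omega, ?_, ?_⟩
      · rw [flg_mid _ w₁ w₂ u m d hm g1 rfl d (by omega)]
        exact g2
      · rw [par_mid _ w₁ w₂ u m d hm g1 rfl (Or.inr hK),
          tgt_mid _ w₁ w₂ u m d hm g1 rfl d (by omega)]
        rwa [Bool.false_xor] at g3
    · obtain ⟨w₁, w₂, rfl, h3, h⟩ := (h2 G e hi hl w').2.mp h
      obtain ⟨d, g1, g2, g3⟩ := (h1 G e hi hl false w₁).mp h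
      have hw : w₁ ++ w₂ ++ u = [] ++ w₁ ++ (w₂ ++ u) := by
        rw [List.nil_append, List.append_assoc]
      have hm : ([] : List Bool).length = 3 * 0 := rfl
      have hK : 0 + (2 * d + 1) ≤ (w₁ ++ w₂ ++ u).length / 3 := by
        rw [List.length_append, List.length_append]
        omega
      refine ⟨0 + d, by omega, ?_, ?_⟩
      · rw [flg_mid _ [] w₁ (w₂ ++ u) 0 d hm g1 hw d (by omega)]
        exact g2
      · rw [par_mid _ [] w₁ (w₂ ++ u) 0 d hm g1 hw (Or.inl rfl),
          tgt_mid _ [] w₁ (w₂ ++ u) 0 d hm g1 hw d (by omega)]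
        rwa [Bool.false_xor] at g3
  · rintro ⟨l, hlK, hf, hp⟩
    obtain ⟨K, hK⟩ : ∃ K, K = w.length / 3 := ⟨_, rfl⟩
    rw [← hK] at hlK
    have hwA : w = w.take (3 * K) ++ w.drop (3 * K) := (List.take_append_drop _ _).symm
    have hu : (w.drop (3 * K)).length < 3 := by
      rw [List.length_drop]
      omega
    have hA : (w.take (3 * K)).length = 3 * K := by
      rw [List.length_take]
      omega
    refine ⟨w.take (3 * K), w.drop (3 * K), hwA, hu, ?_⟩
    generalize hAd : w.take (3 * K) = A at hwA hA
    generalize hud : w.drop (3 * K) = u at hwA hu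
    by_cases h2l : 2 * l + 1 ≤ K
    · right
      rw [(h2 G e hi hl A).2]
      have g1 : (A.take (3 * (2 * l + 1))).length = 3 * (2 * l + 1) := by
        rw [List.length_take]
        omega
      refine ⟨A.take (3 * (2 * l + 1)), A.drop (3 * (2 * l + 1)),
        (List.take_append_drop _ _).symm, ?_, ?_⟩
      · rw [List.length_drop, hA]
        exact ⟨K - (2 * l + 1), by omega⟩
      · rw [h1 G e hi hl false]
        have hw : w = [] ++ A.take (3 * (2 * l + 1)) ++ (A.drop (3 * (2 * l + 1)) ++ u) := by
          rw [List.nil_append, ← List.append_assoc, List.take_append_drop]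
          exact hwA
        have hm : ([] : List Bool).length = 3 * 0 := rfl
        refine ⟨l, g1, ?_, ?_⟩
        · rw [← flg_mid _ [] _ _ 0 l hm g1 hw l (by omega), Nat.zero_add]
          exact hf
        · rw [Bool.false_xor, ← par_mid _ [] _ _ 0 l hm g1 hw (Or.inl rfl),
            ← tgt_mid _ [] _ _ 0 l hm g1 hw l (by omega), Nat.zero_add]
          exact hp
    · left
      rw [(h2 G e hi hl A).1]
      obtain ⟨d, hd⟩ : ∃ d, l + d + 1 = K := ⟨K - 1 - l, by omega⟩
      obtain ⟨m, hm'⟩ : ∃ m, m + d = l := ⟨l - d, by omega⟩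
      have g0 : (A.take (3 * m)).length = 3 * m := by
        rw [List.length_take]
        omega
      have g1 : (A.drop (3 * m)).length = 3 * (2 * d + 1) := by
        rw [List.length_drop, hA]
        omega
      refine ⟨A.take (3 * m), A.drop (3 * m), (List.take_append_drop _ _).symm, ⟨m, g0⟩, ?_⟩
      rw [h1 G e hi hl false]
      have hw : w = A.take (3 * m) ++ A.drop (3 * m) ++ u := by
        rw [List.take_append_drop]
        exact hwA
      have hKm : w.length / 3 = m + (2 * d + 1) := by omega
      refine ⟨d, g1, ?_, ?_⟩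
      · rw [← flg_mid _ _ _ _ m d g0 g1 hw d (by omega), hm']
        exact hf
      · rw [Bool.false_xor, ← par_mid _ _ _ _ m d g0 g1 hw (Or.inr hKm),
          ← tgt_mid _ _ _ _ m d g0 g1 hw d (by omega), hm']
        exact hp

end Pool.Agent.H822R5.LN.TLNG
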