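import Pool.Agent.H822R5.LN.Defs
import Pool.Agent.H554R2.Lin.Main
import Pool.Agent.H554R2.Lin.Blocks

/-!
# A linear context-free language which is hard for branching programs of length `k n`: assembly
-/

set_option autoImplicit false

open Finset

namespace Pool.Agent.H822R5.LN.TMAIN

open Pool.Agent.H822R5.LN
open Pool.Agent.H554R2.Sem Pool.Agent.H554R2.Coin Pool.Agent.H554R2.Lin

/-- the grammar -/
noncomputable def gr (hf1 : S_inner_fin) (hf2 : S_last_fin) : LinGrammar Bool where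
  NT := NTs
  start := .z
  inner := {p | Inner p}
  last := {p | Last p}
  inner_fin := hf1
  last_fin := hf2

theorem lang (hf1 : S_inner_fin) (hf2 : S_last_fin) (hl : S_language) (w : List Bool) :
    w ∈ (gr hf1 hf2).language ↔ Mem w :=
  hl (gr hf1 hf2) (Equiv.refl _) rfl (fun _ _ _ _ => Iff.rfl) (fun _ _ => Iff.rfl) w

theorem MAIN (hf1 : S_inner_fin) (hf2 : S_last_fin) (hl : S_language) (hpop : S_popular)
    (hprime : S_prime) (hsub : S_sub) (hwords : S_words) (hrect : S_rect) : S_main := by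
  classical
  refine ⟨gr hf1 hf2, ?_⟩
  intro k
  obtain ⟨Q, r, N, hQ, hr, hN, hmain⟩ := main_rect (60 * k + 1)
  -- parameters
  set M := N * (4 * (r + 4)) * 60 + 2 * Q * Q * 2 + 4 * r + 16 with hM
  obtain ⟨N1, hN1⟩ := hprime M
  set D := 60 * (N * (4 * (r + 4))) * 60 + N1 + 1 with hD
  have hD0 : 0 < D := by omega
  refine ⟨D, hD0, ?_⟩
  intro n hn P hPs hPf
  by_contra hneg
  push Not at hneg
  obtain ⟨p, hp, hp3, hMp, hpn, hnp⟩ := hN1 n (by omega)
  have hp1 : 1 ≤ p := by omega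
  set m := p * p with hm
  have hpm : p ≤ m := Nat.le_mul_of_pos_left p (by omega)
  have hm0 : 0 < m := by omega
  obtain ⟨c, hc⟩ := hpop p hp1
  obtain ⟨φ, hφ⟩ := hwords p n hp1 hpn c
  obtain ⟨P', hP'c, hP'1, hP'2⟩ := hsub n m hm0 φ P
  set G : Finset (Pt m) := univ.filter (fun x : Pt m => ∀ s ∈ Sp p, form p s x = c s) with hG
  have hnot : ∀ x : Pt m, x ∈ G ↔ List.ofFn (sub φ x) ∉ (gr hf1 hf2).language := by
    intro x
    rw [lang hf1 hf2 hl, hφ, hG, Finset.mem_filter]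
    simp only [Finset.mem_univ, true_and]
    push Not
    rfl
  -- blocks
  set s := 60 * k * m / r + 1 with hs
  have hs1 : 60 * k * m ≤ r * s := by
    have := Nat.lt_mul_div_succ (60 * k * m) hr
    rw [hs]; exact this.le
  have hrm : r ≤ m := by omega
  have hs2 : r * s ≤ (60 * k + 1) * m := by
    have h1 := Nat.mul_div_le (60 * k * m) r
    rw [hs]; nlinarith
  obtain ⟨B, hB1, hB2⟩ := blocks P' r s hr G (by
    intro x hx
    obtain ⟨l, hl1, hl2⟩ := hneg (sub φ x) ((hnot x).1 hx)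
    obtain ⟨l', hl'1, hl'2⟩ := hP'1 x l false hl1
    refine ⟨l', hl'2, ?_⟩
    rw [hl'1]
    calc l.length ≤ k * n := hl2
      _ ≤ k * (60 * m) := Nat.mul_le_mul_left k hnp
      _ = 60 * k * m := by ring
      _ ≤ r * s := hs1)
  rw [hP'c] at hB1
  -- sizes
  have hnD : n / D ≤ m / (N * (4 * (r + 4))) / 60 := by
    have hx : 0 < N * (4 * (r + 4)) := by positivity
    rw [Nat.div_div_eq_div_mul, Nat.le_div_iff_mul_le (by positivity)]
    have h1 : n / D * D ≤ n := Nat.div_mul_le_self n D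
    have h2 : n / D * (60 * (N * (4 * (r + 4))) * 60) ≤ n / D * D :=
      Nat.mul_le_mul_left _ (by omega)
    have h3 : n / D * (N * (4 * (r + 4)) * 60) * 60 ≤ 60 * m := by
      calc n / D * (N * (4 * (r + 4)) * 60) * 60 = n / D * (60 * (N * (4 * (r + 4))) * 60) := by ring
        _ ≤ n / D * D := h2
        _ ≤ n := h1
        _ ≤ 60 * m := hnp
    omega
  have h4p : 4 * p * (2 * N) ≤ m := by
    have : 8 * N ≤ p := by
      have : N * (4 * (r + 4)) * 60 ≤ M := by omega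
      nlinarith
    calc 4 * p * (2 * N) = (8 * N) * p := by ring
      _ ≤ p * p := Nat.mul_le_mul_right p this
  have hexp : 4 * p + (n / D) * (r + 1) ≤ m / N := by
    rw [Nat.le_div_iff_mul_le hN]
    have h1 : n / D ≤ m / (N * (4 * (r + 4))) := hnD.trans (Nat.div_le_self _ _)
    have h2 : m / (N * (4 * (r + 4))) * (N * (4 * (r + 4))) ≤ m := Nat.div_mul_le_self _ _
    have h3 : (n / D) * (N * (4 * (r + 4))) ≤ m := (Nat.mul_le_mul_right _ h1).trans h2
    have h4 : 2 * ((n / D) * (r + 1) * N) ≤ (n / D) * (N * (4 * (r + 4))) := by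
      have : 2 * ((n / D) * (r + 1) * N) = (n / D) * (N * (2 * (r + 1))) := by ring
      rw [this]
      apply Nat.mul_le_mul_left
      apply Nat.mul_le_mul_left
      omega
    have h5 : 2 * (4 * p * N) ≤ m := by
      calc 2 * (4 * p * N) = 4 * p * (2 * N) := by ring
        _ ≤ m := h4p
    have h6 : (4 * p + n / D * (r + 1)) * N = 4 * p * N + n / D * (r + 1) * N := by ring
    omega
  have hKbig : 2 ^ m ≤ 2 ^ (m / N) * B.K.card := by
    calc 2 ^ m ≤ 2 ^ (4 * p) * G.card := hc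
      _ ≤ 2 ^ (4 * p) * (Fintype.card P.State ^ (r + 1) * B.K.card) :=
          Nat.mul_le_mul_left _ hB1
      _ ≤ 2 ^ (4 * p) * ((2 ^ (n / D)) ^ (r + 1) * B.K.card) := by
          apply Nat.mul_le_mul_left
          exact Nat.mul_le_mul_right _ (Nat.pow_le_pow_left hPs.le _)
      _ = 2 ^ (4 * p + (n / D) * (r + 1)) * B.K.card := by
          rw [← pow_mul, ← mul_assoc, ← pow_add]
      _ ≤ 2 ^ (m / N) * B.K.card :=
          Nat.mul_le_mul_right _ (Nat.pow_le_pow_right (by norm_num) hexp)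
  have hNm : N ≤ m := by
    have : N * 1 ≤ N * (4 * (r + 4)) * 60 := by
      rw [mul_assoc]
      exact Nat.mul_le_mul_left N (by omega)
    omega
  obtain ⟨a, b, g, ha, hb, hga, hgb, hR⟩ := hmain m hNm s hs2 B hKbig
  have hKform : ∀ x ∈ B.K, ∀ s ∈ Sp p, form p s x = c s := by
    intro x hx
    obtain ⟨l, hl'⟩ := hB2 x hx
    obtain ⟨l', -, hl''⟩ := hP'2 x l false hl'
    have h1 := (hnot x).2 (hPf _ _ hl'')
    exact (Finset.mem_filter.1 h1).2
  have hfin := hrect p hp hp3 B.K a b g hR c hKform (by omega) (by omega)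
  -- numbers
  have ha2 : a ≤ 2 * (a - g) := by omega
  have hb2 : b ≤ 2 * (b - g) := by omega
  have h1 : m * m ≤ (Q * a) * (Q * b) := Nat.mul_le_mul ha hb
  have h2 : (Q * a) * (Q * b) ≤ (Q * (2 * (a - g))) * (Q * (2 * (b - g))) :=
    Nat.mul_le_mul (Nat.mul_le_mul_left Q ha2) (Nat.mul_le_mul_left Q hb2)
  have h3 : (Q * (2 * (a - g))) * (Q * (2 * (b - g))) = 4 * (Q * Q) * ((a - g) * (b - g)) := by
    ring
  have h4 : 4 * (Q * Q) * ((a - g) * (b - g)) ≤ 4 * (Q * Q) * p ^ 3 :=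
    Nat.mul_le_mul_left _ hfin
  have h5 : m * m ≤ 4 * (Q * Q) * p ^ 3 := by
    calc m * m ≤ (Q * a) * (Q * b) := h1
      _ ≤ _ := h2
      _ = _ := h3
      _ ≤ _ := h4
  have h6 : m * m = p * p ^ 3 := by rw [hm]; ring
  have h7 : p ≤ 4 * (Q * Q) := by
    rw [h6] at h5
    exact Nat.le_of_mul_le_mul_right h5 (by positivity)
  have h8 : 4 * (Q * Q) + 1 ≤ M := by
    have : 2 * Q * Q * 2 = 4 * (Q * Q) := by ring
    omega
  omega

end Pool.Agent.H822R5.LN.TMAIN
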