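import Pool.Agent.H822R5.LN.Defs

set_option autoImplicit false

open Finset

namespace Pool.Agent.H822R5.LN.TPOP

open Pool.Agent.H822R5.LN
open Pool.Agent.H554R2.Sem Pool.Agent.H554R2.Coin Pool.Agent.H554R2.Lin

theorem POP (h : S_card_Sp) : S_popular := by
  classical
  intro p hp
  set F : Pt (p * p) → ({s // s ∈ Sp p} → Bool) := fun x s => form p s.1 x with hF
  obtain ⟨c₀, hc₀⟩ : ∃ c₀ : {s // s ∈ Sp p} → Bool,
      2 ^ (p * p) ≤ 2 ^ (4 * p) * (univ.filter (fun x => F x = c₀)).card := by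
    by_contra hcon
    push Not at hcon
    have h1 : ∑ c : {s // s ∈ Sp p} → Bool, (univ.filter (fun x => F x = c)).card
        = 2 ^ (p * p) := by
      rw [← Finset.card_eq_sum_card_fiberwise (fun x _ => Finset.mem_univ (F x))]
      simp [Pt]
    have h2 : 2 ^ (4 * p) * 2 ^ (p * p) < 2 ^ (4 * p) * 2 ^ (p * p) := by
      calc 2 ^ (4 * p) * 2 ^ (p * p)
          = ∑ c : {s // s ∈ Sp p} → Bool,
              2 ^ (4 * p) * (univ.filter (fun x => F x = c)).card := by
            rw [← Finset.mul_sum, h1]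
        _ < ∑ _c : {s // s ∈ Sp p} → Bool, 2 ^ (p * p) :=
            Finset.sum_lt_sum_of_nonempty Finset.univ_nonempty (fun c _ => hcon c)
        _ = 2 ^ (Sp p).card * 2 ^ (p * p) := by
            simp
        _ ≤ 2 ^ (4 * p) * 2 ^ (p * p) :=
            Nat.mul_le_mul_right _ (Nat.pow_le_pow_right (by norm_num) (h p hp))
    exact absurd h2 (lt_irrefl _)
  refine ⟨fun s => if hs : s ∈ Sp p then c₀ ⟨s, hs⟩ else false, hc₀.trans ?_⟩
  refine Nat.mul_le_mul_left _ (Finset.card_le_card ?_)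
  intro x hx
  simp only [Finset.mem_filter, Finset.mem_univ, true_and] at hx ⊢
  intro s hs
  simp only [hs, dif_pos]
  rw [← hx]

end Pool.Agent.H822R5.LN.TPOP
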