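import Pool.Agent.H822R5.LN.Defs

set_option autoImplicit false

open Finset

namespace Pool.Agent.H822R5.LN.TPOPX

open Pool.Agent.H822R5.LN
open Pool.Agent.H554R2.Sem

theorem POP (h : S_card_Sp) : S_popular := by
  classical
  intro p hp
  have hc := h p hp
  set q : Pt (p * p) → (Sp p → Bool) := fun x s => form p s x with hq
  have hsum : ∑ c : Sp p → Bool, (univ.filter (fun x : Pt (p * p) => q x = c)).card =
      2 ^ (p * p) := by
    have h1 := Finset.card_eq_sum_card_fiberwise (f := q) (s := (univ : Finset (Pt (p * p))))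
      (t := (univ : Finset (Sp p → Bool))) (fun _ _ => Finset.mem_univ _)
    rw [← h1]
    simp
  have hex : ∃ c : Sp p → Bool, 2 ^ (p * p) ≤
      2 ^ (Sp p).card * (univ.filter (fun x : Pt (p * p) => q x = c)).card := by
    by_contra hcon
    push Not at hcon
    have h2 : 2 ^ (Sp p).card * 2 ^ (p * p) < 2 ^ (Sp p).card * 2 ^ (p * p) := by
      calc 2 ^ (Sp p).card * 2 ^ (p * p)
          = ∑ c : Sp p → Bool,
            2 ^ (Sp p).card * (univ.filter (fun x : Pt (p * p) => q x = c)).card := by
              rw [← Finset.mul_sum, hsum]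
        _ < ∑ _c : Sp p → Bool, 2 ^ (p * p) :=
            Finset.sum_lt_sum_of_nonempty Finset.univ_nonempty (fun c _ => hcon c)
        _ = 2 ^ (Sp p).card * 2 ^ (p * p) := by
            rw [Finset.sum_const, Finset.card_univ, Fintype.card_fun, Fintype.card_bool,
              Fintype.card_coe, smul_eq_mul]
    exact lt_irrefl _ h2
  obtain ⟨c, hc2⟩ := hex
  refine ⟨fun s => if hs : s ∈ Sp p then c ⟨s, hs⟩ else false, ?_⟩
  refine hc2.trans ?_
  refine Nat.mul_le_mul (Nat.pow_le_pow_right (by norm_num) hc) (Finset.card_le_card ?_)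
  intro x hx
  simp only [Finset.mem_filter, Finset.mem_univ, true_and] at hx ⊢
  intro s hs
  rw [dif_pos hs, ← hx]

end Pool.Agent.H822R5.LN.TPOPX
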