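import Pool.Agent.H822R5.LN.Defs

set_option autoImplicit false

namespace Pool.Agent.H822R5.LN.TPOS

open Pool.Agent.H822R5.LN

theorem POS : S_pos := by
  intro p hp
  refine ⟨fun u v huv => ?_, fun v hv => ?_⟩
  · unfold pos
    have h1 : u % p < p := Nat.mod_lt _ (by omega)
    have h2 : v % p < p := Nat.mod_lt _ (by omega)
    have e1 := Nat.div_add_mod u p
    have e2 := Nat.div_add_mod v p
    rcases Nat.lt_or_ge (u / p) (v / p) with h | h
    · have : 2 * p * (u / p + 1) ≤ 2 * p * (v / p) := Nat.mul_le_mul_left _ h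
      have e3 : 2 * p * (u / p + 1) = 2 * p * (u / p) + 2 * p := by ring
      omega
    · have h3 : v / p ≤ u / p := h
      have h4 : u / p ≤ v / p := Nat.div_le_div_right huv.le
      have h5 : u / p = v / p := le_antisymm h4 h3
      rw [h5] at e1 ⊢
      have : u % p < v % p := by omega
      omega
  · unfold pos
    have h2 : v % p < p := Nat.mod_lt _ (by omega)
    have h3 : v / p < p := Nat.div_lt_of_lt_mul hv
    have h4 : 2 * p * (v / p + 1) ≤ 2 * p * p := Nat.mul_le_mul_left _ h3
    have e3 : 2 * p * (v / p + 1) = 2 * p * (v / p) + 2 * p := by ring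
    omega

end Pool.Agent.H822R5.LN.TPOS
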