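import Pool.Agent.H822R5.LN.Defs

set_option autoImplicit false

namespace Pool.Agent.H822R5.LN.TPRM

open Pool.Agent.H822R5.LN

theorem PRM : S_prime := by
  intro M
  refine ⟨48 * (M + 3) * (M + 3) + 51, ?_⟩
  intro n hn
  set t := (n - 3) / 48 with ht
  set q := Nat.sqrt t with hq
  have h1 : q * q ≤ t := Nat.sqrt_le t
  have h2 : t < (q + 1) * (q + 1) := Nat.lt_succ_sqrt t
  have h3 : (M + 3) * (M + 3) ≤ t := by
    rw [ht, Nat.le_div_iff_mul_le (by norm_num)]
    have : (M + 3) * (M + 3) * 48 = 48 * (M + 3) * (M + 3) := by ring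
    omega
  have h4 : M + 3 ≤ q := Nat.le_sqrt.2 h3
  obtain ⟨p, hp, hqp, hp2⟩ := Nat.exists_prime_lt_and_le_two_mul q (by omega)
  have ht48 : 48 * t ≤ n - 3 := by rw [ht]; omega
  have ht48' : n - 3 < 48 * t + 48 := by rw [ht]; omega
  refine ⟨p, hp, by omega, by omega, ?_, ?_⟩
  · have : p * p ≤ (2 * q) * (2 * q) := Nat.mul_le_mul hp2 hp2
    have h5 : 3 * (4 * p * p + 1) = 12 * (p * p) + 3 := by ring
    have h6 : (2 * q) * (2 * q) = 4 * (q * q) := by ring
    omega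
  · have h7 : (q + 1) * (q + 1) ≤ p * p := Nat.mul_le_mul hqp hqp
    have h8 : 3 * 3 ≤ p * p := Nat.mul_le_mul (by omega) (by omega)
    omega

end Pool.Agent.H822R5.LN.TPRM
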