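import Mathlib
import Pool.Agent.H822R5.LN.Defs

/-!
# Task RCT: no large rectangles
-/

set_option autoImplicit false

open Finset

namespace Pool.Agent.H822R5.LN.TRCT

open Pool.Agent.H822R5.LN
open Pool.Agent.H554R2.Sem Pool.Agent.H554R2.Coin Pool.Agent.H554R2.Lin

theorem RCT (h1 : S_first) (h2 : S_cross) (h3 : S_expand) : S_rect := by
  intro p hp hp3 K a b g hR c hc hga hgb
  obtain ⟨R⟩ := hR
  obtain ⟨P, hPA, hPc, hP⟩ := h1 (p * p) R.A R.X R.x0 R.hX
  obtain ⟨Q, hQB, hQc, hQ⟩ := h1 (p * p) R.B R.Y R.x0 R.hY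
  have hXY : P.card * Q.card ≤ p ^ 3 := by
    refine h3 p hp hp3 P Q ?_
    intro u hu v hv hs
    obtain ⟨x, hx, x', hx', hxu, hxl⟩ := hP u hu
    obtain ⟨y, hy, y', hy', hyv, hyl⟩ := hQ v hv
    refine h2 p hp.one_le R.A R.B R.disj R.x0 x x' y y' (R.hX x hx) (R.hX x' hx')
      (R.hY y hy) (R.hY y' hy') u (hPA hu) v (hQB hv) hxu hxl hyv hyl
      (c (pos p u + pos p v)) ⟨?_, ?_, ?_, ?_⟩
    · exact hc _ (R.mem x hx y hy) _ hs
    · exact hc _ (R.mem x' hx' y hy) _ hs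
    · exact hc _ (R.mem x hx y' hy') _ hs
    · exact hc _ (R.mem x' hx' y' hy') _ hs
  have hPa : a - g ≤ P.card := by
    have h : 2 ^ a ≤ 2 ^ (g + P.card) := by
      rw [pow_add]
      exact le_trans R.nX (Nat.mul_le_mul_left _ hPc)
    have := (Nat.pow_le_pow_iff_right (by norm_num : 1 < 2)).mp h
    omega
  have hQb : b - g ≤ Q.card := by
    have h : 2 ^ b ≤ 2 ^ (g + Q.card) := by
      rw [pow_add]
      exact le_trans R.nY (Nat.mul_le_mul_left _ hQc)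
    have := (Nat.pow_le_pow_iff_right (by norm_num : 1 < 2)).mp h
    omega
  exact le_trans (Nat.mul_le_mul hPa hQb) hXY

end Pool.Agent.H822R5.LN.TRCT
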