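import Mathlib
import Pool.Agent.H822R5.LN.Defs

/-!
# Substitution of constants and variables in a branching program
-/

set_option autoImplicit false

open Finset

namespace Pool.Agent.H822R5.LN.TSUB

open Pool.Agent.H822R5.LN Pool.Agent.H554R2.Sem Pool.Agent.H554R2.Coin Pool.Agent.H554R2.Lin

/-- the nodes of the new program -/
def nd {n m : ℕ} (hm : 0 < m) (φ : Fin n → Fin m ⊕ Bool) {S : Type}
    (a : (Fin n × (Bool → S)) ⊕ Bool) : (Fin m × (Bool → S)) ⊕ Bool :=
  match a with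
  | Sum.inl (j, nxt) =>
    match φ j with
    | Sum.inl v => Sum.inl (v, nxt)
    | Sum.inr c => Sum.inl (⟨0, hm⟩, fun _ => nxt c)
  | Sum.inr b => Sum.inr b

/-- the new program -/
def prog {n m : ℕ} (hm : 0 < m) (φ : Fin n → Fin m ⊕ Bool) (P : BP (Fin n) Bool) :
    BP (Fin m) Bool where
  State := P.State
  start := P.start
  node := fun s => nd hm φ (P.node s)

/-- the variable queried instead of `j` -/
def vr {n m : ℕ} (hm : 0 < m) (φ : Fin n → Fin m ⊕ Bool) (j : Fin n) : Fin m :=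
  match φ j with
  | Sum.inl v => v
  | Sum.inr _ => ⟨0, hm⟩

theorem nd_inl {n m : ℕ} (hm : 0 < m) (φ : Fin n → Fin m ⊕ Bool) {S : Type}
    (a : (Fin n × (Bool → S)) ⊕ Bool) (j : Fin n) (nxt : Bool → S) (h : a = Sum.inl (j, nxt)) :
    ∃ nxt' : Bool → S, nd hm φ a = Sum.inl (vr hm φ j, nxt') ∧
      ∀ x : Pt m, nxt' (x (vr hm φ j)) = nxt (sub φ x j) := by
  subst h
  unfold nd vr sub
  cases hφ : φ j with
  | inl v =>
    refine ⟨nxt, ?_, ?_⟩
    · simp [hφ]
    · intro x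
      simp [hφ]
  | inr c =>
    refine ⟨fun _ => nxt c, ?_, ?_⟩
    · simp [hφ]
    · intro x
      simp [hφ]

theorem nd_inr {n m : ℕ} (hm : 0 < m) (φ : Fin n → Fin m ⊕ Bool) {S : Type}
    (a : (Fin n × (Bool → S)) ⊕ Bool) (b : Bool) : nd hm φ a = Sum.inr b ↔ a = Sum.inr b := by
  constructor
  · intro h
    cases a with
    | inl p =>
      obtain ⟨j, nxt⟩ := p
      obtain ⟨nxt', h1, -⟩ := nd_inl hm φ _ j nxt rfl
      rw [h1] at h
      cases h
    | inr b' =>
      simpa [nd] using h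
  · intro h
    subst h
    rfl

theorem walk1 {n m : ℕ} (hm : 0 < m) (φ : Fin n → Fin m ⊕ Bool) (P : BP (Fin n) Bool)
    (x : Pt m) : ∀ (l : List (Fin n)) (s t : P.State), P.Walk (sub φ x) s l t →
      (prog hm φ P).Walk x s (l.map (vr hm φ)) t := by
  intro l
  induction l with
  | nil => intro s t h; exact h
  | cons j l ih =>
    intro s t h
    obtain ⟨nxt, h1, h2⟩ := h
    obtain ⟨nxt', h3, h4⟩ := nd_inl hm φ (P.node s) j nxt h1
    refine ⟨nxt', h3, ?_⟩
    have := ih _ _ h2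
    rw [← h4 x] at this
    exact this

theorem walk2 {n m : ℕ} (hm : 0 < m) (φ : Fin n → Fin m ⊕ Bool) (P : BP (Fin n) Bool)
    (x : Pt m) : ∀ (l : List (Fin m)) (s t : P.State), (prog hm φ P).Walk x s l t →
      ∃ l' : List (Fin n), l'.length = l.length ∧ P.Walk (sub φ x) s l' t := by
  intro l
  induction l with
  | nil => intro s t h; exact ⟨[], rfl, h⟩
  | cons v l ih =>
    intro s t h
    obtain ⟨nxt, h1, h2⟩ := h
    have h1' : nd hm φ (P.node s) = Sum.inl (v, nxt) := h1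
    cases hs : P.node s with
    | inr b =>
      rw [hs] at h1'
      cases h1'
    | inl p =>
      obtain ⟨j, nx⟩ := p
      obtain ⟨nxt', h3, h4⟩ := nd_inl hm φ (P.node s) j nx hs
      rw [h3] at h1'
      have h5 : (vr hm φ j, nxt') = (v, nxt) := Sum.inl.inj h1'
      have h6 : vr hm φ j = v := congrArg Prod.fst h5
      have h7 : nxt' = nxt := congrArg Prod.snd h5
      obtain ⟨l', hl', hw⟩ := ih _ _ h2
      refine ⟨j :: l', by simp [hl'], nx, hs, ?_⟩
      rw [← h4 x, h6, h7]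
      exact hw

theorem SUB : S_sub := by
  intro n m hm φ P
  refine ⟨prog hm φ P, rfl, ?_, ?_⟩
  · rintro x l b ⟨v, hw, hv⟩
    exact ⟨l.map (vr hm φ), by simp, v, walk1 hm φ P x l _ _ hw, (nd_inr hm φ _ b).2 hv⟩
  · rintro x l b ⟨v, hw, hv⟩
    obtain ⟨l', hl', hw'⟩ := walk2 hm φ P x l _ _ hw
    exact ⟨l', hl', v, hw', (nd_inr hm φ _ b).1 hv⟩

end Pool.Agent.H822R5.LN.TSUB
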