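import Pool.Agent.H822R5.LN.Defs

set_option autoImplicit false

open Finset

namespace Pool.Agent.H822R5.LN.TWRD

open Pool.Agent.H822R5.LN
open Pool.Agent.H554R2.Sem Pool.Agent.H554R2.Coin Pool.Agent.H554R2.Lin

theorem getD_ofFn {n : ℕ} (f : Fin n → Bool) (i : ℕ) (h : i < n) :
    (List.ofFn f).getD i false = f ⟨i, h⟩ := by
  rw [List.getD_eq_getElem?_getD, List.getElem?_ofFn]
  simp [h]

open Classical in
/-- the substitution -/
noncomputable def phi (p n : ℕ) (c : ℕ → Bool) (j : Fin n) : Fin (p * p) ⊕ Bool :=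
  if j.val % 3 = 0 then
    (if h : ∃ v : Fin (p * p), j.val / 3 = 2 * pos p v + 1 then Sum.inl h.choose
      else Sum.inr false)
  else if j.val % 3 = 1 then Sum.inr (decide (1 ≤ j.val / 3 ∧ j.val / 3 - 1 ∈ Sp p))
  else Sum.inr (c (j.val / 3 - 1))

theorem pos_inj {p : ℕ} (hp : ∀ u v : ℕ, u < v → pos p u < pos p v) {u v : Fin (p * p)}
    (h : pos p u = pos p v) : u = v := by
  apply Fin.ext
  rcases lt_trichotomy u.val v.val with h1 | h1 | h1
  · have := hp _ _ h1; omega
  · exact h1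
  · have := hp _ _ h1; omega

theorem val_iff {p n : ℕ} (hp : ∀ u v : ℕ, u < v → pos p u < pos p v) (c : ℕ → Bool)
    (x : Pt (p * p)) (l : ℕ) (hl : l < n / 3) :
    val (List.ofFn (sub (phi p n c) x)) l = true ↔
      ∃ v : Fin (p * p), l = 2 * pos p v + 1 ∧ x v = true := by
  have hn : 3 * l < n := by omega
  unfold val
  rw [getD_ofFn _ _ hn]
  have h0 : (3 * l) % 3 = 0 := by omega
  have h1 : (3 * l) / 3 = l := by omega
  unfold sub phi
  simp only [h0, h1, if_true]
  by_cases h : ∃ v : Fin (p * p), l = 2 * pos p v + 1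
  · rw [dif_pos h]
    have hc := h.choose_spec
    constructor
    · intro hx
      exact ⟨h.choose, hc, hx⟩
    · rintro ⟨v, hv, hx⟩
      have : h.choose = v := pos_inj hp (by omega)
      simp only [this]
      exact hx
  · rw [dif_neg h]
    constructor
    · intro hx
      simp at hx
    · rintro ⟨v, hv, hx⟩
      exact absurd ⟨v, hv⟩ h

theorem flg_iff {p n : ℕ} (c : ℕ → Bool)
    (x : Pt (p * p)) (l : ℕ) (hl : l < n / 3) :
    flg (List.ofFn (sub (phi p n c) x)) l = true ↔ 1 ≤ l ∧ l - 1 ∈ Sp p := by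
  have hn : 3 * l + 1 < n := by omega
  unfold flg
  rw [getD_ofFn _ _ hn]
  have h0 : (3 * l + 1) % 3 = 1 := by omega
  have h1 : (3 * l + 1) / 3 = l := by omega
  unfold sub phi
  simp [h0, h1]

theorem tgt_eq {p n : ℕ} (c : ℕ → Bool)
    (x : Pt (p * p)) (l : ℕ) (hl : l < n / 3) :
    tgt (List.ofFn (sub (phi p n c) x)) l = c (l - 1) := by
  have hn : 3 * l + 2 < n := by omega
  unfold tgt
  rw [getD_ofFn _ _ hn]
  have h0 : (3 * l + 2) % 3 = 2 := by omega
  have h1 : (3 * l + 2) / 3 = l := by omega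
  unfold sub phi
  simp [h0, h1]

theorem Sp_lt {p : ℕ} (hp : 1 ≤ p) {s : ℕ} (hs : s ∈ Sp p) : s < 4 * p * p := by
  unfold Sp at hs
  rw [Finset.mem_image] at hs
  obtain ⟨e, he, rfl⟩ := hs
  rw [Finset.mem_filter, Finset.mem_product, Finset.mem_range, Finset.mem_range] at he
  obtain ⟨⟨h1, h2⟩, -⟩ := he
  obtain ⟨q, rfl⟩ : ∃ q, p = q + 1 := ⟨p - 1, by omega⟩
  have h3 : e.1 ≤ 2 * q := by omega
  have h4 : e.2 ≤ 2 * q := by omega
  have h5 : 2 * (q + 1) * e.2 ≤ 2 * (q + 1) * (2 * q) := Nat.mul_le_mul_left _ h4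
  nlinarith

theorem par_eq {p n : ℕ} (hp1 : 1 ≤ p) (hn : 3 * (4 * p * p + 1) ≤ n)
    (hp : ∀ u v : ℕ, u < v → pos p u < pos p v)
    (hb : ∀ v < p * p, pos p v < 2 * p * p) (c : ℕ → Bool) (x : Pt (p * p)) (s : ℕ) :
    par (List.ofFn (sub (phi p n c) x)) (n / 3) (s + 1) = form p s x := by
  have hK : 4 * p * p + 1 ≤ n / 3 := by omega
  unfold par form
  congr 2
  symm
  apply Finset.card_bij (fun e _ => pos p e.2 - pos p e.1)
  · intro e he
    rw [Finset.mem_filter] at he
    obtain ⟨-, he1, he2, he3, he4⟩ := he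
    have h1 := hp _ _ he1
    have h2 := hb e.2 e.2.isLt
    have h3 := hb e.1 e.1.isLt
    rw [Finset.mem_filter, Finset.mem_range]
    have h5 : 2 * (2 * p * p) = 4 * p * p := by ring
    refine ⟨by omega, by omega, by omega, by omega, ?_, ?_⟩
    · rw [val_iff hp c x _ (by omega)]
      exact ⟨e.1, by omega, he3⟩
    · rw [val_iff hp c x _ (by omega)]
      exact ⟨e.2, by omega, he4⟩
  · intro e he e' he' h
    rw [Finset.mem_filter] at he he'
    obtain ⟨-, he1, he2, he3, he4⟩ := he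
    obtain ⟨-, he1', he2', he3', he4'⟩ := he'
    have h1 := hp _ _ he1
    have h1' := hp _ _ he1'
    have a1 : e.1 = e'.1 := pos_inj hp (by omega)
    have a2 : e.2 = e'.2 := pos_inj hp (by omega)
    exact Prod.ext a1 a2
  · intro t ht
    rw [Finset.mem_filter, Finset.mem_range] at ht
    obtain ⟨ht1, ht2, ht3, ht4, ht5, ht6⟩ := ht
    rw [val_iff hp c x _ (by omega)] at ht5
    rw [val_iff hp c x _ (by omega)] at ht6
    obtain ⟨u, hu, hxu⟩ := ht5
    obtain ⟨v, hv, hxv⟩ := ht6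
    have huv : pos p u < pos p v := by omega
    have hlt : u < v := by
      rw [Fin.lt_def]
      by_contra hle
      rcases Nat.lt_or_ge v.val u.val with h1 | h1
      · have := hp _ _ h1; omega
      · have : u.val = v.val := by omega
        rw [this] at huv
        omega
    refine ⟨(u, v), ?_, by simp only; omega⟩
    rw [Finset.mem_filter]
    exact ⟨Finset.mem_univ _, hlt, by simp only; omega, hxu, hxv⟩

theorem WRD (h : S_pos) : S_words := by
  intro p n hp1 hn c
  obtain ⟨hp, hb⟩ := h p hp1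
  refine ⟨phi p n c, fun x => ?_⟩
  have hlen : (List.ofFn (sub (phi p n c) x)).length = n := List.length_ofFn
  unfold Mem
  rw [hlen]
  constructor
  · rintro ⟨l, hl, hf, hpt⟩
    rw [flg_iff c x l hl] at hf
    obtain ⟨h1, h2⟩ := hf
    rw [tgt_eq c x l hl] at hpt
    refine ⟨l - 1, h2, ?_⟩
    have h3 : l = (l - 1) + 1 := by omega
    rw [h3, par_eq hp1 hn hp hb c x (l - 1)] at hpt
    simpa using hpt
  · rintro ⟨s, hs, hne⟩
    have h1 := Sp_lt hp1 hs
    have hl : s + 1 < n / 3 := by omega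
    refine ⟨s + 1, hl, ?_, ?_⟩
    · rw [flg_iff c x _ hl]
      exact ⟨by omega, by simpa using hs⟩
    · rw [tgt_eq c x _ hl, par_eq hp1 hn hp hb c x s]
      simpa using hne

end Pool.Agent.H822R5.LN.TWRD
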